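import Mathlib
import Pool.Agent.H48.IG.Logs

/-!
# Infinitely many logarithms in every dense set of integers

Let `d : ℕ → ℕ` be any function, and let `A` be a set of integers with at least
`x / (log x) ^ (1 - ε)` elements up to `x` for arbitrarily large `x`, for instance a set of positive
upper density.  We show that `A` contains integers `b_0 < b_1 < b_2 < ⋯` with the following
properties.

1. Consider all sums of periods `α ∏_i (log b_i) ^ (a_i)` and `α log m ∏_i (log b_i) ^ (a_i)` with
   algebraic `α`, any positive integer `m`, any finite number of factors and with exponents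
   `a_i ≤ d(i)`.  Equality of two such expressions is decided by formal comparison: they have the same
   value if and only if they are equal as polynomials in the logarithms of the prime numbers, if these
   logarithms are considered as independent variables.  In particular `P(log b_0, …, log b_n) ≠ 0` for
   every nonzero polynomial `P` with algebraic coefficients and of degree at most `d(i)` in `log b_i`.
   The same holds, with linear relations in place of formal logarithms, for expressions which contain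
   arbitrary linear forms in logarithms of algebraic numbers in place of `log m`.

2. Let `K` be a countable set of arbitrary complex numbers.  For every finite subset `S` of `K` there
   is an index `m` such that for all `n` and all different indices `i_1, …, i_n ≥ m` we have
   `P(log b_(i_1), …, log b_(i_n)) ≠ 0` for all nonzero polynomials `P` of degree at most `d(i_j)` in the
   `j`-th variable whose coefficients are linear combinations, with algebraic coefficients, of `1` and
   of the elements of `S`; and equality of expressions as in 1, which may contain also one factor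
   from `S`, follows from linear relations.  (The index `m`
   depends only on `S`, and not on the degrees or on the heights of the algebraic coefficients; there
   are infinitely many independent conditions in every step.)

   The set `K` may depend on the `b_i`: it is the union of countable sets
   `F(b_0, …, b_(s-1))`, `s = 0, 1, 2, …`, where `F` is an arbitrary function.  Hence we can
   take for `K` a countable algebraically closed field, closed under the exponential function,
   which contains all periods and all `log b_i`.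

3. This is won as a game: there are numbers `T_s`, which depend only on `s`, `ε`, `d` and `g`, such
   that an opponent may, in step `s` and knowing `b_0, …, b_(s-1)`, give us any space `G_s` of complex
   numbers, of dimension at most `g(s)` over the algebraic numbers, and any set of at least
   `x / (log x) ^ (1 - ε)` integers in `[1, x]`, `x ≥ T_s`, in which we choose `b_s`.  In the end the
   properties of 2 hold for all `m` and all indices `≥ m`, with `G_m` in place of `S`.

The proof adds one logarithm after the other.  The choice of one more logarithm, with finite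
dimensional spaces of coefficients, is from the library (`Pool.Agent.R350.one_varD`, from the strong
six exponentials theorem of D. Roy), where finitely many logarithms and bounded degrees are considered
(`Pool.Agent.R350.FreeT`).  Here the degrees are different (`Pool.Agent.H48.IG.FreeV`), and in every
step one has to keep, for each `m`, the conditions with the spaces `G_m`.
-/

set_option autoImplicit false

namespace Pool.Agent.Results.MP_bbe012_lc.InfinitelyManyLogarithms

open Module MvPolynomial Filter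

/-- the linear combinations, with algebraic coefficients, of `1` and of logarithms of algebraic
numbers -/
noncomputable def LogForms : Submodule (algebraicClosure ℚ ℂ) ℂ :=
  Submodule.span (algebraicClosure ℚ ℂ) ({1} ∪ {z : ℂ | IsAlgebraic ℚ (Complex.exp z)})

/-- The equality of the two expressions `P`, `P'` in the numbers `x i` follows from the linear
relations with algebraic coefficients between `1` and the `x i`. -/
def LinearlyEqual {ι : Type} (x : ι → ℂ) (P P' : MvPolynomial ι (algebraicClosure ℚ ℂ)) : Prop :=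
  ∀ φ : ℂ →ₗ[algebraicClosure ℚ ℂ] ℂ, φ 1 = 1 →
    aeval (fun i => φ (x i)) P = aeval (fun i => φ (x i)) P'

/-- `P` has degree at most `e i` in the `i`-th of the first `n` variables, and total degree at most
one in the last `r` variables -/
def Small {n r : ℕ} (e : Fin n → ℕ) (P : MvPolynomial (Fin n ⊕ Fin r) (algebraicClosure ℚ ℂ)) :
    Prop :=
  (∀ i, P.degreeOf (Sum.inl i) ≤ e i) ∧ ∀ β ∈ P.support, ∑ j, β (Sum.inr j) ≤ 1

/-- `1, y_1, …, y_n` are linearly independent over the algebraic numbers, and two expressions in the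
`y_i` and in arbitrary elements `l_j` of `V`, of degree at most `e i` in `y_i` and of total degree at
most one in the `l_j`, are equal if and only if they are linearly equal. -/
def EqualityIsLinear (V : Submodule (algebraicClosure ℚ ℂ) ℂ) {n : ℕ} (e : Fin n → ℕ)
    (y : Fin n → ℂ) : Prop :=
  LinearIndependent (algebraicClosure ℚ ℂ) (Fin.cons 1 y : Fin (n + 1) → ℂ) ∧
  ∀ (r : ℕ) (l : Fin r → ℂ), (∀ j, l j ∈ V) →
    ∀ P P' : MvPolynomial (Fin n ⊕ Fin r) (algebraicClosure ℚ ℂ), Small e P → Small e P' →
      (aeval (Sum.elim y l) P = aeval (Sum.elim y l) P' ↔ LinearlyEqual (Sum.elim y l) P P')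

/-- For all finite sets of indices `≥ m`, the numbers `log (b i)` satisfy no nontrivial polynomial
relation of degree at most `d i` in `log (b i)` with coefficients in `ℚ̄ + G`, and the equality of
expressions which contain also arbitrary elements of `LogForms + G` follows from linear relations. -/
def Independent (d b : ℕ → ℕ) (G : Submodule (algebraicClosure ℚ ℂ) ℂ) (m : ℕ) : Prop :=
  ∀ (n : ℕ) (i : Fin n → ℕ), Function.Injective i → (∀ j, m ≤ i j) →
    (∀ P : MvPolynomial (Fin n) ℂ, P ≠ 0 →
      (∀ β, P.coeff β ∈ Submodule.span (algebraicClosure ℚ ℂ) {(1 : ℂ)} ⊔ G) →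
      (∀ j, P.degreeOf j ≤ d (i j)) → eval (fun j => (Real.log (b (i j)) : ℂ)) P ≠ 0) ∧
    EqualityIsLinear (LogForms ⊔ G) (fun j => d (i j)) (fun j => (Real.log (b (i j)) : ℂ))

/-- the formal logarithm of a positive integer: the logarithm of every prime number `p` is replaced
by an independent variable `X p` -/
noncomputable def formalLog (m : ℕ) : MvPolynomial ℕ (algebraicClosure ℚ ℂ) :=
  m.factorization.sum fun p k => C (k : algebraicClosure ℚ ℂ) * X p

/-- Two expressions in different numbers `log (b i)` and in arbitrary logarithms `log m` of positive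
integers, of degree at most `d i` in `log (b i)` and of total degree at most one in the `log m`, have
the same value if and only if the formal expressions in the logarithms of the primes are equal. -/
def EqualityIsFormal (d b : ℕ → ℕ) : Prop :=
  ∀ (n : ℕ) (i : Fin n → ℕ), Function.Injective i → ∀ (r : ℕ) (m : Fin r → ℕ), (∀ k, 0 < m k) →
    ∀ P P' : MvPolynomial (Fin n ⊕ Fin r) (algebraicClosure ℚ ℂ), Small (fun j => d (i j)) P →
      Small (fun j => d (i j)) P' →
      (aeval (Sum.elim (fun j => (Real.log (b (i j)) : ℂ)) (fun k => (Real.log (m k) : ℂ))) P =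
        aeval (Sum.elim (fun j => (Real.log (b (i j)) : ℂ)) (fun k => (Real.log (m k) : ℂ))) P' ↔
      aeval (Sum.elim (fun j => formalLog (b (i j))) (fun k => formalLog (m k))) P =
        aeval (Sum.elim (fun j => formalLog (b (i j))) (fun k => formalLog (m k))) P')

theorem small_sub {n r : ℕ} {e : Fin n → ℕ}
    {P P' : MvPolynomial (Fin n ⊕ Fin r) (algebraicClosure ℚ ℂ)}
    (h : Small e P) (h' : Small e P') : Small e (P - P') := by
  classical
  refine ⟨fun i => (degreeOf_sub_le _ _ _).trans (max_le (h.1 i) (h'.1 i)), fun β hβ => ?_⟩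
  by_contra hno
  have hP : coeff β P = 0 := by
    by_contra hne
    exact hno (h.2 β (MvPolynomial.mem_support_iff.2 hne))
  have hP' : coeff β P' = 0 := by
    by_contra hne
    exact hno (h'.2 β (MvPolynomial.mem_support_iff.2 hne))
  rw [MvPolynomial.mem_support_iff, coeff_sub, hP, hP', sub_self] at hβ
  exact hβ rfl

theorem eq_linear (V : Submodule (algebraicClosure ℚ ℂ) ℂ) {N : ℕ} (e : Fin N → ℕ)
    (y : Fin N → ℂ) (hone : (1 : ℂ) ∈ V) (hyV : ∀ i, y i ∈ V)
    (hfree : Pool.Agent.H48.IG.FreeV (fun i => e i + 1) V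
      (Submodule.span (algebraicClosure ℚ ℂ) {(1 : ℂ)}) y) : EqualityIsLinear V e y := by
  refine ⟨?_, fun r l hl P P' hP hP' => ⟨fun hE φ hφ => ?_, fun hE => ?_⟩⟩
  · have h1 : (1 : ℂ) ∈ Submodule.span (algebraicClosure ℚ ℂ) {(1 : ℂ)} :=
      Submodule.mem_span_singleton_self _
    rw [Fintype.linearIndependent_iff]
    intro c hc
    rw [Fin.sum_univ_succ, Fin.cons_zero] at hc
    have h2 := Pool.Agent.H48.IG.FreeV.indep_mod hfree h1 (fun i => c i.succ) (by
      have e1 : ∑ i : Fin N, c i.succ • y i = (-c 0) • (1 : ℂ) := by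
        rw [neg_smul, eq_neg_iff_add_eq_zero, add_comm]
        exact hc
      have e2 := Submodule.smul_mem (Submodule.span (algebraicClosure ℚ ℂ) {(1 : ℂ)}) (-c 0) h1
      rw [← e1] at e2
      exact e2)
    have h3 : c 0 = 0 := by
      rw [Finset.sum_eq_zero (fun i _ => by rw [h2 i, zero_smul]), add_zero] at hc
      exact (smul_eq_zero.1 hc).resolve_right one_ne_zero
    intro i
    refine Fin.cases h3 (fun i => h2 i) i
  · have h3 := small_sub hP hP'
    have h2 := Pool.Agent.H48.IG.FreeV.lin_maps hfree hone hyV l hl (P - P') h3.1 h3.2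
      (by rw [map_sub, hE, sub_self]) φ hφ
    rw [map_sub, sub_eq_zero] at h2
    exact h2
  · exact hE LinearMap.id rfl

theorem degreeOf_rename_le {R : Type} [CommRing R] {σ τ : Type} {f : σ → τ}
    (hf : Function.Injective f) (P : MvPolynomial σ R) (t : τ) (e : ℕ)
    (h : ∀ s, f s = t → P.degreeOf s ≤ e) : (rename f P).degreeOf t ≤ e := by
  classical
  rw [degreeOf_le_iff]
  intro β hβ
  rw [support_rename_of_injective hf, Finset.mem_image] at hβ
  obtain ⟨γ, hγ, rfl⟩ := hβ
  by_cases hi : ∃ s, f s = t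
  · obtain ⟨s, rfl⟩ := hi
    rw [Finsupp.mapDomain_apply hf]
    exact (degreeOf_le_iff.1 (h s rfl)) γ hγ
  · rw [Finsupp.mapDomain_of_notMem_range]
    · exact Nat.zero_le _
    · rintro ⟨s, hs⟩
      exact hi ⟨s, hs⟩

theorem EqualityIsLinear.comp {V : Submodule (algebraicClosure ℚ ℂ) ℂ} {N n : ℕ}
    {e : Fin N → ℕ} {y : Fin N → ℂ} (h : EqualityIsLinear V e y) (g : Fin n → Fin N)
    (hg : Function.Injective g) :
    EqualityIsLinear V (fun j => e (g j)) (fun j => y (g j)) := by
  classical
  refine ⟨?_, fun r l hl P P' hP hP' => ?_⟩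
  · have h1 := h.1.comp (Fin.cons 0 (fun j => (g j).succ) : Fin (n + 1) → Fin (N + 1)) (by
      rw [Fin.cons_injective_iff]
      refine ⟨?_, (Fin.succ_injective _).comp hg⟩
      rintro ⟨j, hj⟩
      exact Fin.succ_ne_zero _ hj)
    convert h1 using 1
    funext i
    refine Fin.cases ?_ (fun i => ?_) i
    · simp
    · simp
  · have hf : Function.Injective (Sum.map g id : Fin n ⊕ Fin r → Fin N ⊕ Fin r) :=
      hg.sumMap Function.injective_id
    have hs : ∀ P : MvPolynomial (Fin n ⊕ Fin r) (algebraicClosure ℚ ℂ),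
        Small (fun j => e (g j)) P → Small e (rename (Sum.map g id) P) := by
      intro P hP
      refine ⟨fun i => ?_, fun β hβ => ?_⟩
      · refine degreeOf_rename_le hf P _ _ ?_
        rintro (j | j) hj
        · have h2 : g j = i := Sum.inl_injective hj
          rw [← h2]
          exact hP.1 j
        · exact absurd hj Sum.inr_ne_inl
      · rw [support_rename_of_injective hf, Finset.mem_image] at hβ
        obtain ⟨γ, hγ, rfl⟩ := hβ
        have e : ∀ j : Fin r, (Finsupp.mapDomain (Sum.map g id) γ : Fin N ⊕ Fin r →₀ ℕ)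
            (Sum.inr j) = γ (Sum.inr j) := fun j => by
          have e1 : (Sum.inr j : Fin N ⊕ Fin r) = Sum.map g id (Sum.inr j) := rfl
          rw [e1, Finsupp.mapDomain_apply hf]
        rw [Finset.sum_congr rfl fun j _ => e j]
        exact hP.2 γ hγ
    have hx : ∀ φ : ℂ → ℂ, ∀ P : MvPolynomial (Fin n ⊕ Fin r) (algebraicClosure ℚ ℂ),
        aeval (fun i => φ (Sum.elim y l i)) (rename (Sum.map g id) P) =
          aeval (fun i => φ (Sum.elim (fun j => y (g j)) l i)) P := by
      intro φ P
      rw [aeval_rename]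
      congr 2
      funext i
      rcases i with i | i <;> rfl
    have h2 := h.2 r l hl _ _ (hs P hP) (hs P' hP')
    unfold LinearlyEqual at h2 ⊢
    have h3 := hx id
    simp only [id] at h3
    simp only [hx] at h2
    rw [h3, h3] at h2
    exact h2

theorem EqualityIsLinear.mono {V V' : Submodule (algebraicClosure ℚ ℂ) ℂ} (hV : V' ≤ V) {n : ℕ}
    {e : Fin n → ℕ} {y : Fin n → ℂ} (h : EqualityIsLinear V e y) : EqualityIsLinear V' e y :=
  ⟨h.1, fun r l hl => h.2 r l fun j => hV (hl j)⟩

theorem map_log (φ : ℂ →ₗ[algebraicClosure ℚ ℂ] ℂ) (m : ℕ) :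
    φ (Real.log m : ℂ) = aeval (fun p : ℕ => φ (Real.log p : ℂ)) (formalLog m) := by
  rw [Pool.Agent.H48.IG.log_fact, formalLog, Finsupp.sum, Finsupp.sum, map_sum, map_sum]
  refine Finset.sum_congr rfl fun p _ => ?_
  rw [map_smul, map_mul, aeval_C, aeval_X, Algebra.smul_def]

theorem EqualityIsLinear.formal {V : Submodule (algebraicClosure ℚ ℂ) ℂ} {n : ℕ}
    {e : Fin n → ℕ} {c : Fin n → ℕ} (h : EqualityIsLinear V e (fun j => (Real.log (c j) : ℂ)))
    (hV : LogForms ≤ V) (r : ℕ) (m : Fin r → ℕ)
    (hm : ∀ k, 0 < m k) (P P' : MvPolynomial (Fin n ⊕ Fin r) (algebraicClosure ℚ ℂ))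
    (hP : Small e P) (hP' : Small e P') :
    aeval (Sum.elim (fun j => (Real.log (c j) : ℂ)) (fun k => (Real.log (m k) : ℂ))) P =
      aeval (Sum.elim (fun j => (Real.log (c j) : ℂ)) (fun k => (Real.log (m k) : ℂ))) P' ↔
    aeval (Sum.elim (fun j => formalLog (c j)) (fun k => formalLog (m k))) P =
      aeval (Sum.elim (fun j => formalLog (c j)) (fun k => formalLog (m k))) P' := by
  classical
  rw [h.2 r (fun k => (Real.log (m k) : ℂ)) (fun k => hV (Submodule.subset_span (Or.inr (by
    change IsAlgebraic ℚ (Complex.exp (Real.log (m k) : ℂ))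
    rw [← Complex.ofReal_exp, Real.exp_log (by exact_mod_cast hm k), Complex.ofReal_natCast]
    exact isAlgebraic_natCast _)))) P P' hP hP']
  have key : ∀ φ : ℂ →ₗ[algebraicClosure ℚ ℂ] ℂ,
      ∀ Q : MvPolynomial (Fin n ⊕ Fin r) (algebraicClosure ℚ ℂ),
      aeval (fun i => φ (Sum.elim (fun j => (Real.log (c j) : ℂ))
        (fun k => (Real.log (m k) : ℂ)) i)) Q =
      aeval (fun p : ℕ => φ (Real.log p : ℂ))
        (aeval (Sum.elim (fun j => formalLog (c j)) (fun k => formalLog (m k))) Q) := by
    intro φ Q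
    rw [← AlgHom.comp_apply, comp_aeval]
    congr 2
    funext i
    rcases i with i | i
    · exact map_log φ _
    · exact map_log φ _
  constructor
  · intro hL
    refine MvPolynomial.funext fun s => ?_
    obtain ⟨φ, hφ1, hφ⟩ := Pool.Agent.H48.IG.exists_map_primes s
    have hfl : ∀ k : ℕ, aeval (fun p : ℕ => φ (Real.log p : ℂ)) (formalLog k) =
        algebraMap (algebraicClosure ℚ ℂ) ℂ (eval s (formalLog k)) := by
      intro k
      rw [formalLog, Finsupp.sum, map_sum, map_sum, map_sum]
      refine Finset.sum_congr rfl fun p hp => ?_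
      rw [map_mul, map_mul, map_mul, aeval_C, aeval_X, eval_C, eval_X,
        hφ p (Nat.prime_of_mem_primeFactors hp)]
      rfl
    have key2 : ∀ Q : MvPolynomial (Fin n ⊕ Fin r) (algebraicClosure ℚ ℂ),
        aeval (fun p : ℕ => φ (Real.log p : ℂ))
          (aeval (Sum.elim (fun j => formalLog (c j)) (fun k => formalLog (m k))) Q) =
        algebraMap (algebraicClosure ℚ ℂ) ℂ (eval s
          (aeval (Sum.elim (fun j => formalLog (c j)) (fun k => formalLog (m k))) Q)) := by
      intro Q
      rw [← coe_aeval_eq_eval, RingHom.coe_coe, ← AlgHom.comp_apply, ← AlgHom.comp_apply,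
        comp_aeval, comp_aeval, ← aeval_algebraMap_apply]
      congr 2
      funext i
      rcases i with i | i
      · exact hfl _
      · exact hfl _
    have h1 := hL φ hφ1
    rw [key, key, key2, key2] at h1
    exact (algebraMap (algebraicClosure ℚ ℂ) ℂ).injective h1
  · intro hF φ _
    rw [key, key, hF]

theorem ne_zero {V K : Submodule (algebraicClosure ℚ ℂ) ℂ} {N n : ℕ} {e : Fin N → ℕ}
    {y : Fin N → ℂ} (h : Pool.Agent.H48.IG.FreeV (fun i => e i + 1) V K y) (g : Fin n → Fin N)
    (hg : Function.Injective g) (P : MvPolynomial (Fin n) ℂ) (hP : P ≠ 0)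
    (hK : ∀ β, P.coeff β ∈ K) (hd : ∀ j, P.degreeOf j ≤ e (g j)) :
    eval (fun j => y (g j)) P ≠ 0 := by
  classical
  intro h0
  apply hP
  have h1 := h.indep (rename g P) (fun i => (degreeOf_rename_le hg P i (e i) (by
    rintro j rfl
    exact hd j)).trans (Nat.le_succ _)) (by
    intro β
    by_cases hβ : β ∈ (rename g P).support
    · rw [support_rename_of_injective hg, Finset.mem_image] at hβ
      obtain ⟨γ, -, rfl⟩ := hβ
      rw [coeff_rename_mapDomain g hg]
      exact hK γ
    · rw [MvPolynomial.notMem_support_iff.1 hβ]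
      exact K.zero_mem) (by
    rw [eval_rename]
    exact h0)
  exact rename_injective g hg (by rw [h1, map_zero])

theorem independent_of_cond (d b : ℕ → ℕ) (hpos : ∀ s, 0 < b s)
    (G : Submodule (algebraicClosure ℚ ℂ) ℂ) (D : ℕ)
    (hb : ∀ s, D ≤ s → Pool.Agent.H48.IG.Cond1 d G
      (Submodule.span (algebraicClosure ℚ ℂ) {(1 : ℂ)}) s D (fun i : Fin s => b i) (b s) ∧
      Pool.Agent.H48.IG.Cond1 d G (Submodule.span (algebraicClosure ℚ ℂ) {(1 : ℂ)} ⊔ G) s D
        (fun i : Fin s => b i) (b s)) : Independent d b G D := by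
  classical
  intro n i hi hD
  have h1 : (1 : ℂ) ∈ Submodule.span (algebraicClosure ℚ ℂ) {(1 : ℂ)} :=
    Submodule.mem_span_singleton_self _
  set N := Finset.univ.sup i + 1 with hN
  have hlt : ∀ j, i j < N := fun j => Nat.lt_succ_of_le (Finset.le_sup (Finset.mem_univ j))
  set g : Fin n → Fin N := fun j => ⟨i j - D, by have := hlt j; omega⟩ with hg
  have hgi : Function.Injective g := by
    intro a c hac
    apply hi
    have h2 := congrArg Fin.val hac
    simp only [hg] at h2
    have h3 := hD a
    have h4 := hD c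
    omega
  have hDi : ∀ j, D + (i j - D) = i j := fun j => by have := hD j; omega
  have hF1 := Pool.Agent.H48.IG.freeV_of_cond d b hpos D G _ h1 (fun s hs => (hb s hs).1) N
  have hF2 := Pool.Agent.H48.IG.freeV_of_cond d b hpos D G _ (Submodule.mem_sup_left (T := G) h1)
    (fun s hs => (hb s hs).2) N
  constructor
  · intro P hP hK hd
    have h2 := ne_zero (e := fun i : Fin N => d (D + i)) hF2 g hgi P hP hK (fun j => by
      change P.degreeOf j ≤ d (D + (i j - D))
      rw [hDi]
      exact hd j)
    have e : (fun j => (Real.log (b (D + (g j : ℕ)) : ℕ) : ℂ)) =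
        fun j => (Real.log (b (i j)) : ℂ) := by
      funext j
      change (Real.log (b (D + (i j - D)) : ℕ) : ℂ) = _
      rw [hDi]
    rw [e] at h2
    exact h2
  · have h2 := (eq_linear (LogForms ⊔ G) (fun i : Fin N => d (D + i)) _
      (Submodule.mem_sup_left (Submodule.subset_span (Or.inl rfl)))
      (fun i => Submodule.mem_sup_left (Submodule.subset_span (Or.inr (by
        change IsAlgebraic ℚ (Complex.exp (Real.log (b (D + i)) : ℂ))
        rw [← Complex.ofReal_exp, Real.exp_log (by exact_mod_cast hpos _),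
          Complex.ofReal_natCast]
        exact isAlgebraic_natCast _)))) hF1).comp g hgi
    have e : (fun j => (Real.log (b (D + (g j : ℕ)) : ℕ) : ℂ)) =
        fun j => (Real.log (b (i j)) : ℂ) := by
      funext j
      change (Real.log (b (D + (i j - D)) : ℕ) : ℂ) = _
      rw [hDi]
    have e' : (fun j => d (D + (g j : ℕ))) = fun j => d (i j) := by
      funext j
      change d (D + (i j - D)) = _
      rw [hDi]
    rw [e, e'] at h2
    exact h2

theorem Independent.formal {d b : ℕ → ℕ} {G : Submodule (algebraicClosure ℚ ℂ) ℂ}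
    (h : Independent d b G 0) : EqualityIsFormal d b := by
  intro n i hi r m hm P P' hP hP'
  exact (h n i hi fun _ => Nat.zero_le _).2.formal le_sup_left r m hm P P' hP hP'

theorem Independent.mono {d b : ℕ → ℕ} {G G' : Submodule (algebraicClosure ℚ ℂ) ℂ} {m : ℕ}
    (hG : G' ≤ G) (h : Independent d b G m) : Independent d b G' m := by
  intro n i hi hm
  exact ⟨fun P hP hK => (h n i hi hm).1 P hP fun β => sup_le_sup_left hG _ (hK β),
    (h n i hi hm).2.mono (sup_le_sup_left hG _)⟩

theorem ext_eq (b : ℕ → ℕ) {s i : ℕ} (hi : i < s) :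
    Pool.Agent.H48.IG.ext (fun i : Fin s => b i) i = b i := by
  unfold Pool.Agent.H48.IG.ext
  rw [dif_pos hi]

theorem game (ε : ℝ) (hε : 0 < ε) (d g : ℕ → ℕ) : ∃ T : ℕ → ℕ,
    ∀ (G : (s : ℕ) → (Fin s → ℕ) → Submodule (algebraicClosure ℚ ℂ) ℂ)
      (A : (s : ℕ) → (Fin s → ℕ) → Finset ℕ),
      (∀ s p, Module.Finite (algebraicClosure ℚ ℂ) (G s p) ∧
        finrank (algebraicClosure ℚ ℂ) (G s p) ≤ g s) →
      (∀ s p, ∃ x ≥ T s, A s p ⊆ Finset.Icc 1 x ∧
        (x : ℝ) / Real.log x ^ (1 - ε) ≤ (A s p).card) →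
      ∃ b : ℕ → ℕ, (∀ s, b s ∈ A s (fun i => b i)) ∧
        ∀ m, Independent d b (G m (fun i => b i)) m := by
  choose T hT using fun s => Pool.Agent.H48.IG.exists_next ε hε d g s 0
  refine ⟨T, fun G A hG hA => ?_⟩
  obtain ⟨b, hb⟩ := Pool.Agent.H48.IG.exists_seq (fun s (p : Fin s → ℕ) a => a ∈ A s p ∧ 0 < a ∧
    Pool.Agent.H48.IG.Cond d (fun D => G D (fun i : Fin D => Pool.Agent.H48.IG.ext p i)) s p a) (by
      intro s p
      obtain ⟨x, hx, hAx, hc⟩ := hA s p
      obtain ⟨a, ha, h0, h⟩ := hT s x hx
        (fun D => G D (fun i : Fin D => Pool.Agent.H48.IG.ext p i)) (fun D => (hG D _).1)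
        (fun D _ => (hG D _).2) p _ hAx hc
      exact ⟨a, ha, h0, h⟩)
  refine ⟨b, fun s => (hb s).1, fun m => independent_of_cond d b (fun s => (hb s).2.1) _ m ?_⟩
  intro s hs
  have h := (hb s).2.2 m hs
  have e : (fun i : Fin m => Pool.Agent.H48.IG.ext (fun i : Fin s => b i) (i : ℕ)) =
      fun i : Fin m => b i := by
    funext i
    exact ext_eq b (lt_of_lt_of_le i.2 hs)
  beta_reduce at h
  rw [e] at h
  exact h

theorem dense (ε : ℝ) (hε : 0 < ε) (d : ℕ → ℕ) (A : Set ℕ)
    (hA : ∃ᶠ x : ℕ in atTop,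
      (x : ℝ) / Real.log x ^ (1 - ε) ≤ ({a ∈ A | 1 ≤ a ∧ a ≤ x}.ncard : ℝ))
    (F : (s : ℕ) → (Fin s → ℕ) → Set ℂ) (hF : ∀ s p, (F s p).Countable) :
    ∃ b : ℕ → ℕ, StrictMono b ∧ (∀ s, b s ∈ A) ∧
      (∀ S : Set ℂ, S.Finite → S ⊆ ⋃ s, F s (fun i => b i) →
        ∃ m, Independent d b (Submodule.span (algebraicClosure ℚ ℂ) S) m) ∧
      Independent d b ⊥ 0 ∧ EqualityIsFormal d b := by
  classical
  choose e he using fun s p => Set.countable_iff_exists_subset_range.1 (hF s p)
  set G : (D : ℕ) → (Fin D → ℕ) → Submodule (algebraicClosure ℚ ℂ) ℂ := fun D p =>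
    Submodule.span (algebraicClosure ℚ ℂ) (Set.range fun q : Fin (D + 1) × Fin (D + 1) =>
      e q.1 (fun i : Fin q.1 => Pool.Agent.H48.IG.ext p i) q.2) with hG
  have hGf : ∀ D p, Module.Finite (algebraicClosure ℚ ℂ) (G D p) := fun D p =>
    Module.Finite.span_of_finite _ (Set.finite_range _)
  have hGr : ∀ D p, finrank (algebraicClosure ℚ ℂ) (G D p) ≤ (D + 1) * (D + 1) := by
    intro D p
    have h := finrank_range_le_card (R := algebraicClosure ℚ ℂ)
      (fun q : Fin (D + 1) × Fin (D + 1) =>
        e q.1 (fun i : Fin q.1 => Pool.Agent.H48.IG.ext p i) q.2)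
    rwa [Fintype.card_prod, Fintype.card_fin] at h
  choose T hT using fun s M => Pool.Agent.H48.IG.exists_next ε hε d
    (fun D => (D + 1) * (D + 1)) s M
  obtain ⟨b, hb⟩ := Pool.Agent.H48.IG.exists_seq (fun s (p : Fin s → ℕ) a => a ∈ A ∧ 0 < a ∧
    (∀ i, p i < a) ∧
    Pool.Agent.H48.IG.Cond d (fun D => G D (fun i : Fin D => Pool.Agent.H48.IG.ext p i)) s p a) (by
      intro s p
      obtain ⟨x, hx, hc⟩ := (frequently_atTop.1 hA) (T s (Finset.univ.sup p))
      have hfin : {a ∈ A | 1 ≤ a ∧ a ≤ x}.Finite :=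
        (Set.finite_Icc 1 x).subset fun a ha => ⟨ha.2.1, ha.2.2⟩
      rw [Set.ncard_eq_toFinset_card _ hfin] at hc
      obtain ⟨a, ha, h0, h⟩ := hT s _ x hx
        (fun D => G D (fun i : Fin D => Pool.Agent.H48.IG.ext p i)) (fun D => hGf D _)
        (fun D _ => hGr D _) p hfin.toFinset (by
          intro a ha
          rw [Set.Finite.mem_toFinset] at ha
          exact Finset.mem_Icc.2 ha.2) hc
      rw [Set.Finite.mem_toFinset] at ha
      exact ⟨a, ha.1, by omega, fun i => lt_of_le_of_lt (Finset.le_sup (Finset.mem_univ i)) h0, h⟩)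
  have hind : ∀ m, Independent d b (G m (fun i => b i)) m := by
    intro m
    refine independent_of_cond d b (fun s => (hb s).2.1) _ m ?_
    intro s hs
    have h := (hb s).2.2.2 m hs
    have e : (fun i : Fin m => Pool.Agent.H48.IG.ext (fun i : Fin s => b i) (i : ℕ)) =
        fun i : Fin m => b i := by
      funext i
      exact ext_eq b (lt_of_lt_of_le i.2 hs)
    beta_reduce at h
    rw [e] at h
    exact h
  refine ⟨b, strictMono_nat_of_lt_succ fun s => (hb (s + 1)).2.2.1 ⟨s, Nat.lt_succ_self s⟩,
    fun s => (hb s).1, fun S hS hSF => ?_, (hind 0).mono bot_le, (hind 0).formal⟩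
  have h1 : ∀ θ ∈ S, ∃ q : ℕ × ℕ, e q.1 (fun i => b i) q.2 = θ := by
    intro θ hθ
    obtain ⟨s, hs⟩ := Set.mem_iUnion.1 (hSF hθ)
    obtain ⟨k, hk⟩ := he s _ hs
    exact ⟨(s, k), hk⟩
  choose! q hq using h1
  obtain ⟨m, hm⟩ : ∃ m, ∀ θ ∈ S, (q θ).1 ≤ m ∧ (q θ).2 ≤ m := by
    refine ⟨hS.toFinset.sup fun θ => max (q θ).1 (q θ).2, fun θ hθ => ?_⟩
    have h2 := Finset.le_sup (f := fun θ => max (q θ).1 (q θ).2) (hS.mem_toFinset.2 hθ)
    exact ⟨(le_max_left _ _).trans h2, (le_max_right _ _).trans h2⟩
  refine ⟨m, (hind m).mono ?_⟩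
  rw [Submodule.span_le]
  intro θ hθ
  refine Submodule.subset_span ⟨(⟨(q θ).1, Nat.lt_succ_of_le (hm θ hθ).1⟩,
    ⟨(q θ).2, Nat.lt_succ_of_le (hm θ hθ).2⟩), ?_⟩
  simp only
  have e1 : (fun i : Fin (q θ).1 => Pool.Agent.H48.IG.ext (fun i : Fin m => b i) (i : ℕ)) =
      fun i : Fin (q θ).1 => b i := by
    funext i
    exact ext_eq b (lt_of_lt_of_le i.2 (hm θ hθ).1)
  rw [e1]
  exact hq θ hθ

/-- **Main result.** -/
theorem result (ε : ℝ) (hε : 0 < ε) (d : ℕ → ℕ) :
    (∀ A : Set ℕ, (∃ᶠ x : ℕ in atTop,
        (x : ℝ) / Real.log x ^ (1 - ε) ≤ ({a ∈ A | 1 ≤ a ∧ a ≤ x}.ncard : ℝ)) →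
      ∀ F : (s : ℕ) → (Fin s → ℕ) → Set ℂ, (∀ s p, (F s p).Countable) →
      ∃ b : ℕ → ℕ, StrictMono b ∧ (∀ s, b s ∈ A) ∧
        (∀ S : Set ℂ, S.Finite → S ⊆ ⋃ s, F s (fun i => b i) →
          ∃ m, Independent d b (Submodule.span (algebraicClosure ℚ ℂ) S) m) ∧
        Independent d b ⊥ 0 ∧ EqualityIsFormal d b) ∧
    ∀ g : ℕ → ℕ, ∃ T : ℕ → ℕ,
      ∀ (G : (s : ℕ) → (Fin s → ℕ) → Submodule (algebraicClosure ℚ ℂ) ℂ)
        (A : (s : ℕ) → (Fin s → ℕ) → Finset ℕ),
        (∀ s p, Module.Finite (algebraicClosure ℚ ℂ) (G s p) ∧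
          finrank (algebraicClosure ℚ ℂ) (G s p) ≤ g s) →
        (∀ s p, ∃ x ≥ T s, A s p ⊆ Finset.Icc 1 x ∧
          (x : ℝ) / Real.log x ^ (1 - ε) ≤ (A s p).card) →
        ∃ b : ℕ → ℕ, (∀ s, b s ∈ A s (fun i => b i)) ∧
          (∀ m, Independent d b (G m (fun i => b i)) m) ∧ EqualityIsFormal d b := by
  refine ⟨dense ε hε d, fun g => ?_⟩
  obtain ⟨T, hT⟩ := game ε hε d g
  refine ⟨T, fun G A hG hA => ?_⟩
  obtain ⟨b, h1, h2⟩ := hT G A hG hA
  exact ⟨b, h1, h2, (h2 0).formal⟩

end Pool.Agent.Results.MP_bbe012_lc.InfinitelyManyLogarithms
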