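import Pool.Graph.R_pool_sql_team_seeded_3997aac3.Results.MP_bbe012_lc.ArbitraryFamilies
import Pool.Agent.H48.GM.FineWindow

/-!
# The equality of periods of families over `ℚ`: one rule for the last digits of the parameter

Let `X → S` be families of varieties over open parts of the line over `ℚ`, near a rational point `x = 0` (where they may
degenerate). Their periods are polynomials, with complex coefficients, in `log x` and in G-functions with rational
coefficients. We consider the expressions of degree at most `d`, with integral coefficients of any size, in the periods of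
the fibre at the point `x = 1 / t`, `t` an integer, and in finitely many arbitrary further constants.

The digits of `t` in the base `b` are written down one after the other, leading digit first. There is ONE rule, which names
a digit after every finite sequence of digits, for countably many families and systems of constants at once (for
instance for all families over `ℚ` with all algebraic constants) and for all degrees `d`, with the following property. A
fixed primitive recursive predicate (it depends on the family and on `d`) decides the equality of the values at `t` of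
all pairs of expressions of degree at most `d`, provided that more than `K h(D) log D` of the last `c D` of the `D`
digits of `t` are the digits named by the rule, the others being arbitrary. Here `h` is a given function which tends to
infinity as slowly as we like, and `c > 0`, `K` depend on the family and on `d`.

The bound for the number of exceptional points in short intervals is from the library (`ArbitraryFamilies`). The
intervals in which the number of the exceptions is bounded become shorter and shorter for more and more complicated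
families; therefore the rule, which has to work for all families, considers finer and finer windows of digits
(`H48.GM.FineWindow`).
-/

set_option autoImplicit false

open Filter

namespace Pool.Agent.Results.MP_bbe012_lc.OneRule

open ArbitraryFamilies (GFamily Expression HasDegree value Decides)
open Pool.Agent.H48.GM (play moves words_finite fine_game play_length play_succ)

/-- the number with the `D` digits `z_0, …, z_(D-1)` in the base `b`, leading digit first -/
def number (b D : ℕ) (z : ℕ → ℕ) : ℕ := ∑ j ∈ Finset.range D, z j * b ^ (D - 1 - j)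

theorem number_succ (b D : ℕ) (z : ℕ → ℕ) : number b (D + 1) z = z D + b * number b D z := by
  unfold number
  rw [Finset.sum_range_succ, Finset.mul_sum]
  have e1 : ∀ j ∈ Finset.range D, z j * b ^ (D + 1 - 1 - j) = b * (z j * b ^ (D - 1 - j)) := by
    intro j hj
    rw [Finset.mem_range] at hj
    have : D + 1 - 1 - j = D - 1 - j + 1 := by omega
    rw [this, pow_succ]
    ring
  rw [Finset.sum_congr rfl e1]
  have e2 : D + 1 - 1 - D = 0 := by omega
  rw [e2, pow_zero, mul_one, Nat.add_comm]

theorem number_eq (b D : ℕ) (z : ℕ → ℕ) : number b D z = Nat.ofDigits b (play z D).reverse := by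
  induction D with
  | zero => simp [number, play]
  | succ D ih =>
    rw [number_succ, ih, play_succ, List.reverse_append, List.reverse_singleton, List.singleton_append,
      Nat.ofDigits_cons]

/-- the words of the exceptional numbers -/
def Bad (b : ℕ) (S : ℕ → Prop) : Set (List ℕ) := {w | (∃ d v, w = d :: v ∧ d ≠ 0) ∧ S (Nat.ofDigits b w.reverse)}

theorem count {b : ℕ} (hb : 2 ≤ b) (S : ℕ → Prop) (c C₀ : ℝ) (hc : 0 < c)
    (hS : ∀ x N : ℕ, 1 ≤ N → ({t : ℕ | (x < t ∧ t ≤ x + N) ∧ S t}.ncard : ℝ) ≤ C₀ * (1 + N / ((x : ℝ) + N) ^ c))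
    (u : List ℕ) (l : ℕ) (hu : ∀ d ∈ u, d < b) (hl : (l : ℝ) ≤ (1 + min c 1 / 2) * u.length) :
    {w : List ℕ | w.length = l ∧ (∀ d ∈ w, d < b) ∧ u <+: w ∧ w ∈ Bad b S}.ncard ≤ ⌈2 * |C₀|⌉₊ + 1 := by
  classical
  set m := u.length with hm
  set W := {w : List ℕ | w.length = l ∧ (∀ d ∈ w, d < b) ∧ u <+: w ∧ w ∈ Bad b S} with hW
  have hmin1 : min c 1 ≤ 1 := min_le_right _ _
  have hminc : min c 1 ≤ c := min_le_left _ _
  have hmin0 : 0 < min c 1 := lt_min hc one_pos
  have hm0 : (0 : ℝ) ≤ m := Nat.cast_nonneg _
  by_cases hlm : l ≤ m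
  · -- only the word `u`
    have h1 : W ⊆ {u} := by
      rintro w ⟨hw1, -, hw2, -⟩
      have h2 := hw2.length_le
      exact (hw2.eq_of_length (by omega)).symm
    exact (Set.ncard_le_ncard h1 (Set.finite_singleton u)).trans (by rw [Set.ncard_singleton]; omega)
  push Not at hlm
  have hm2 : 2 ≤ m := by
    by_contra hcon
    push Not at hcon
    have h1 : (m : ℝ) ≤ 1 := by exact_mod_cast (by omega : m ≤ 1)
    have h2 : (m : ℝ) + 1 ≤ l := by exact_mod_cast hlm
    nlinarith
  by_cases hhead : ∃ d v, u = d :: v ∧ d ≠ 0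
  swap
  · have hempty : W = ∅ := by
      rw [Set.eq_empty_iff_forall_notMem]
      rintro w ⟨-, -, ⟨s, hs⟩, ⟨d, v, hw, hd⟩, -⟩
      apply hhead
      rcases u with _ | ⟨d', u'⟩
      · simp only [List.length_nil] at hm
        omega
      · rw [hw, List.cons_append] at hs
        injection hs with h1 h2
        exact ⟨d', u', rfl, by rw [h1]; exact hd⟩
    rw [hempty, Set.ncard_empty]
    exact Nat.zero_le _
  obtain ⟨d, u', hu', hd⟩ := hhead
  set U := Nat.ofDigits b u.reverse with hU
  have hUge : b ^ (m - 1) ≤ U := by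
    rw [hU, hu', List.reverse_cons, Nat.ofDigits_append, List.length_reverse, Nat.ofDigits_singleton]
    have : m - 1 = u'.length := by rw [hm, hu', List.length_cons]; omega
    rw [this]
    have h1 : b ^ u'.length * 1 ≤ b ^ u'.length * d := Nat.mul_le_mul_left _ (Nat.pos_of_ne_zero hd)
    omega
  set N := b ^ (l - m) with hN
  have hN1 : 1 ≤ N := Nat.one_le_pow _ _ (by omega)
  set a := N * U with ha
  have hbl : b ^ (l - 1) ≤ a := by
    have h1 : l - 1 = (l - m) + (m - 1) := by omega
    rw [ha, hN, h1, pow_add]
    exact Nat.mul_le_mul_left _ hUge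
  have ha1 : 1 ≤ a := (Nat.one_le_pow _ _ (by omega)).trans hbl
  have himg : (fun w : List ℕ => Nat.ofDigits b w.reverse) '' W ⊆ {t : ℕ | (a - 1 < t ∧ t ≤ a - 1 + N) ∧ S t} := by
    rintro _ ⟨w, ⟨hw1, hw2, ⟨s, hs⟩, -, hw3⟩, rfl⟩
    refine ⟨?_, hw3⟩
    have h1 : s.length = l - m := by
      have := congrArg List.length hs
      rw [List.length_append] at this
      omega
    have h2 : Nat.ofDigits b w.reverse = Nat.ofDigits b s.reverse + N * U := by
      rw [← hs, List.reverse_append, Nat.ofDigits_append, List.length_reverse, h1]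
    have h3 : Nat.ofDigits b s.reverse < N := by
      rw [hN, ← h1, ← List.length_reverse]
      apply Nat.ofDigits_lt_base_pow_length (by omega)
      intro e he
      rw [List.mem_reverse] at he
      exact hw2 e (by rw [← hs]; exact List.mem_append_right _ he)
    simp only [h2]
    rw [← ha]
    omega
  have hinj : Set.InjOn (fun w : List ℕ => Nat.ofDigits b w.reverse) W := by
    intro w hw v hv h
    have h1 := Nat.ofDigits_inj_of_len_eq (by omega) (by rw [List.length_reverse, List.length_reverse, hw.1, hv.1])
      (fun e he => hw.2.1 e (List.mem_reverse.1 he)) (fun e he => hv.2.1 e (List.mem_reverse.1 he)) h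
    exact List.reverse_injective h1
  have hfin : {t : ℕ | (a - 1 < t ∧ t ≤ a - 1 + N) ∧ S t}.Finite :=
    (Set.finite_Iic (a - 1 + N)).subset fun t ht => ht.1.2
  have hcard : (W.ncard : ℝ) ≤ C₀ * (1 + N / (((a - 1 : ℕ) : ℝ) + N) ^ c) := by
    refine le_trans ?_ (hS (a - 1) N hN1)
    rw [Nat.cast_le, ← hinj.ncard_image]
    exact Set.ncard_le_ncard himg hfin
  -- `N ≤ (x + N) ^ c`
  have hb1 : (1 : ℝ) ≤ b := by exact_mod_cast (by omega : 1 ≤ b)
  have hb0 : (0 : ℝ) < b := by linarith
  have hNr : (N : ℝ) ≤ (((a - 1 : ℕ) : ℝ) + N) ^ c := by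
    have h1 : (b : ℝ) ^ (l - 1) ≤ ((a - 1 : ℕ) : ℝ) + N := by
      have h2 : b ^ (l - 1) ≤ (a - 1) + N := by omega
      exact_mod_cast h2
    have h3 : ((b : ℝ) ^ (l - 1)) ^ c ≤ (((a - 1 : ℕ) : ℝ) + N) ^ c :=
      Real.rpow_le_rpow (by positivity) h1 hc.le
    refine le_trans ?_ h3
    rw [hN]
    push_cast
    rw [← Real.rpow_natCast, ← Real.rpow_natCast, ← Real.rpow_mul hb0.le]
    apply Real.rpow_le_rpow_of_exponent_le hb1
    have h4 : ((l - m : ℕ) : ℝ) = l - m := by rw [Nat.cast_sub hlm.le]
    have h5 : ((l - 1 : ℕ) : ℝ) = l - 1 := by rw [Nat.cast_sub (by omega), Nat.cast_one]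
    rw [h4, h5]
    have h6 : (m : ℝ) + 1 ≤ l := by exact_mod_cast hlm
    have h7 : (2 : ℝ) ≤ m := by exact_mod_cast hm2
    nlinarith
  have h8 : (N : ℝ) / (((a - 1 : ℕ) : ℝ) + N) ^ c ≤ 1 := by
    apply div_le_one_of_le₀ hNr
    positivity
  have h9 : (W.ncard : ℝ) ≤ 2 * |C₀| := by
    refine hcard.trans ?_
    have h10 : (0 : ℝ) ≤ 1 + N / (((a - 1 : ℕ) : ℝ) + N) ^ c := by positivity
    calc C₀ * (1 + N / (((a - 1 : ℕ) : ℝ) + N) ^ c) ≤ |C₀| * (1 + N / (((a - 1 : ℕ) : ℝ) + N) ^ c) :=
          mul_le_mul_of_nonneg_right (le_abs_self _) h10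
      _ ≤ |C₀| * 2 := mul_le_mul_of_nonneg_left (by linarith) (abs_nonneg _)
      _ = 2 * |C₀| := by ring
  have h11 : (W.ncard : ℝ) ≤ ⌈2 * |C₀|⌉₊ := h9.trans (Nat.le_ceil _)
  have h12 : W.ncard ≤ ⌈2 * |C₀|⌉₊ := by exact_mod_cast h11
  omega

/-- **One rule for countably many families.** Let `ι` be a countable set. For `i ∈ ι` let `f i` be a family of G-functions
over `ℚ` (with the conditions of Siegel and Galochkin, regular singular with rational exponents at `0`), let the `P i j` be
polynomials with complex coefficients (the periods of the fibre at `x` are `P_ij(log x, f_i(x))`), and let the `ξ i j` be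
complex constants. There are primitive recursive predicates `Q i d` such that `Q i d (t, E, F)` implies that the
expressions `E` and `F` of degree at most `d` have the same value at `t`, for all `t`, and, for each base `b` and each
monotone function `h ≥ 1` which tends to infinity, a rule `σ`, which names a digit after every finite sequence of digits,
such that for all `i` and `d` there are `c > 0`, `K` and `D₀` with the following property: let `t` be an integer with `D ≥ D₀`
digits in the base `b`. If more than `K h(D) log D` of the digits number `⌊(1 - c) D⌋, …, D - 1` (the leading digit has the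
number `0`) are the ones named by the rule, the other digits being arbitrary, then `Q i d` decides the equality of the values
at `t` of all expressions of degree at most `d`, whatever the size of their coefficients. -/
theorem result (ι : Type) [Countable ι] (ρ n g : ι → ℕ) (T : ι → Polynomial ℤ)
    (A : ∀ i, Fin (ρ i) → Fin (ρ i) → Polynomial ℤ) (f : ∀ i, Fin (ρ i) → PowerSeries ℚ)
    (hG : ∀ i, GFamily (T i) (A i) (f i)) (P : ∀ i, Fin (n i) → MvPolynomial (Option (Fin (ρ i))) ℂ)
    (ξ : ∀ i, Fin (g i) → ℂ) :
    ∃ Q : ∀ (i : ι) (_ : ℕ), (Fin 1 → ℕ) × Expression 1 (n i) (g i) × Expression 1 (n i) (g i) → Prop,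
      (∀ i d, PrimrecPred (Q i d)) ∧
      (∀ i d t E F, HasDegree d E → HasDegree d F → Q i d (t, E, F) →
        value (fun _ => f i) (fun _ => P i) (ξ i) t E = value (fun _ => f i) (fun _ => P i) (ξ i) t F) ∧
      ∀ b : ℕ, 2 ≤ b → ∀ h : ℕ → ℕ, Monotone h → (∀ m, 1 ≤ h m) → Tendsto h atTop atTop →
        ∃ σ : List ℕ → ℕ, (∀ u, σ u < b) ∧ ∀ (i : ι) (d : ℕ), ∃ (c K : ℝ) (D₀ : ℕ), 0 < c ∧
          ∀ z : ℕ → ℕ, (∀ j, z j < b) → z 0 ≠ 0 → ∀ D : ℕ, D₀ ≤ D →
            K * h D * Real.log D < (moves σ z D : ℝ) - moves σ z ⌊(1 - c) * D⌋₊ →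
            Decides (fun _ => f i) (fun _ => P i) (ξ i) d (Q i d) (fun _ => number b D z) := by
  classical
  have hlib := fun (i : ι) (d : ℕ) => ArbitraryFamilies.result 1 (n i) d
    (Finset.univ.sup fun j => (P i j).totalDegree) (g i) (fun _ => ρ i) (fun _ => T i) (fun _ => A i) (fun _ => f i)
    (fun _ => hG i)
  choose c hc hlib using hlib
  have hlib2 := fun (i : ι) (d : ℕ) => hlib i d (fun _ => P i)
    (fun _ j => Finset.le_sup (f := fun j => (P i j).totalDegree) (Finset.mem_univ j)) (ξ i)
  choose C₀ Q hQ hs hcount using hlib2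
  refine ⟨Q, hQ, fun i d t E F hE hF hq => hs i d t E F hE hF hq, fun b hb h hm h1 hlim => ?_⟩
  obtain ⟨σ, hσb, hσ⟩ := fine_game (ι := ι × ℕ) hb h hm h1 hlim
    (fun p => Bad b fun t => ¬ Decides (fun _ => f p.1) (fun _ => P p.1) (ξ p.1) p.2 (Q p.1 p.2) fun _ => t)
    (fun p => min (c p.1 p.2) 1 / 2) (fun p => half_pos (lt_min (hc p.1 p.2) one_pos)) (by
      rintro ⟨i, d⟩
      refine ⟨⌈2 * |C₀ i d|⌉₊ + 1, fun u l hu hl => ?_⟩
      refine count hb _ (c i d) (C₀ i d) (hc i d) ?_ u l hu hl
      intro x N hN
      have e1 := hcount i d (fun _ => x) N hN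
      have e2 : ({t : ℕ | (x < t ∧ t ≤ x + N) ∧
          ¬ Decides (fun _ => f i) (fun _ => P i) (ξ i) d (Q i d) fun _ => t}.ncard) =
          ({t : Fin 1 → ℕ | (∀ i, (fun _ : Fin 1 => x) i < t i ∧ t i ≤ (fun _ : Fin 1 => x) i + N) ∧
            ¬ Decides (fun _ => f i) (fun _ => P i) (ξ i) d (Q i d) t}.ncard) := by
        rw [← Set.ncard_image_of_injective (f := fun (t : ℕ) (_ : Fin 1) => t) _ (fun s t hst => congrFun hst 0)]
        congr 1
        ext t
        constructor
        · rintro ⟨s, ⟨h2, h3⟩, rfl⟩
          exact ⟨fun _ => h2, h3⟩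
        · rintro ⟨h2, h3⟩
          refine ⟨t 0, ⟨h2 0, ?_⟩, ?_⟩
          · have : (fun _ : Fin 1 => t 0) = t := funext fun j => by rw [Subsingleton.elim j 0]
            rw [this]
            exact h3
          · exact funext fun j => by rw [Subsingleton.elim j 0]
      rw [e2]
      refine e1.trans (le_of_eq ?_)
      rw [Nat.sub_self, pow_zero, mul_one, Fin.sum_univ_one])
  refine ⟨σ, hσb, fun i d => ?_⟩
  set κ : ℝ := min (c i d) 1 / 2 with hκ
  have hκ0 : 0 < κ := half_pos (lt_min (hc i d) one_pos)
  have hκ1 : κ ≤ 1 / 2 := by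
    have := min_le_right (c i d) 1
    rw [hκ]
    linarith
  obtain ⟨K, D₀, hK⟩ := hσ (i, d) (1 - κ / 2) (by
    show 1 < (1 - κ / 2) * (1 + κ)
    nlinarith) (by linarith)
  refine ⟨κ / 2, K, D₀ + 1, by positivity, fun z hz hz0 D hD hmov => ?_⟩
  by_contra hcon
  refine hK z hz D (by omega) hmov ⟨?_, ?_⟩
  · obtain ⟨D', rfl⟩ : ∃ D', D = D' + 1 := ⟨D - 1, by omega⟩
    refine ⟨z 0, ((List.range D').map Nat.succ).map z, ?_, hz0⟩
    unfold play
    rw [List.range_succ_eq_map, List.map_cons]
  · rw [← number_eq]
    exact hcon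

end Pool.Agent.Results.MP_bbe012_lc.OneRule
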