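import Pool.Agent.H40.RI.Many

/-!
# Equality of periods for random explicit integrals: an errorless test with `O(log H)` digits

Q1 asks for an algorithm that decides whether two explicit integrals have the same value. We fix the format of the
integrals (the dimension `n`, the number `k` of the polynomial inequalities that describe the domain, each strict or
not, and a bound `2 d` for the degrees in each of the variables) and let ALL the coefficients of the numerator, of
the denominator and of the inequalities run through the integers in `[-H, H]`. (Rational coefficients can be cleared.)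
The domains are arbitrary, they may be unbounded, and the integrands may be unbounded.

For all but a proportion `C / H` of the pairs of data for which both integrals converge absolutely the following
holds: both domains are empty, or the two values differ by more than `c / H ^ (n + 1)` (`n` the larger of the two
dimensions), with explicit constants `c`, `C` that depend on the formats only. So the test which compares
approximations of this precision is never wrong and it answers for all but a proportion `C / H` of the pairs. The
value of a random integral also keeps the distance `c / H ^ (n + 1)` from any given real number `v`, for instance from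
the value of any given integral.

The proof has two parts. (1) Domains: for all but a proportion `O(1 / H)` of the systems of inequalities the domain is
empty or has volume at least `c H ^ (-n)`. If a system is satisfied at a point of the region `|x_i| ≥ 1` (`i ∈ A`),
`|x_i| ≤ 1` (`i ∉ A`), then after adding a positive integer to the coefficients of `∏_{i ∈ A} x_i ^ (2 d)` it is
satisfied with room to spare near this point, so there is at most one exception on every line in this direction.
(2) Integrals: if all the integrals `μ_α` of `x ^ α / Q` over the domain converge then `∑ Q_α μ_α` is the volume of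
the domain, so that some `μ_α` is not small, and the value of the integral moves by `μ_α` if the coefficient `P_α` is
changed by one; if the integral of `x ^ α / Q` diverges then the integral converges for at most one value of `P_α`.
-/

set_option autoImplicit false

namespace Pool.Agent.Results.MP_bbe012_lc.RandomIntegrals

open MeasureTheory Finset Pool.Agent.H40.RI

variable {n k d n' k' d' : ℕ}

/-- the data of an explicit integral: numerator, denominator, `k` polynomials for the inequalities -/
abbrev Input (n k d : ℕ) := Poly n d × Poly n d × (Fin k → Poly n d)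

/-- all data with coefficients in `[-H, H]` -/
noncomputable def inputs (n k d H : ℕ) : Finset (Input n k d) := box n d H ×ˢ box n d H ×ˢ boxes n k d H

/-- the number of the coefficients -/
def size (n k d : ℕ) : ℕ := (k + 2) * (2 * d + 1) ^ n

/-- the domain of the integral: `p j > 0` for the `j` with `s j`, and `p j ≥ 0` for the other `j` -/
def domain (s : Fin k → Bool) (D : Input n k d) : Set (Fin n → ℝ) :=
  {x | ∀ j, if s j then 0 < ev (D.2.2 j) x else 0 ≤ ev (D.2.2 j) x}

/-- the denominator is not the zero polynomial, and the integral converges absolutely -/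
def Converges (s : Fin k → Bool) (D : Input n k d) : Prop :=
  D.2.1 ≠ 0 ∧ IntegrableOn (fun x => ev D.1 x / ev D.2.1 x) (domain s D)

/-- the value of the integral -/
noncomputable def value (s : Fin k → Bool) (D : Input n k d) : ℝ :=
  ∫ x in domain s D, ev D.1 x / ev D.2.1 x

/-- the constant `c` -/
noncomputable def cst (n d : ℕ) : ℝ :=
  1 / (2 * (2 * d + 1) ^ n * (4 * (2 * d * n + 1) * (2 * d + 1) ^ n) ^ n)

open Classical in
/-- the test at the precision `η`: `a`, `a'` are approximations of the two values; the answer is `true` (equal) if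
both domains are empty, `false` (different) if `a` and `a'` differ by more than `η / 4`, and there is no answer
otherwise -/
noncomputable def test (s : Fin k → Bool) (s' : Fin k' → Bool) (D : Input n k d) (D' : Input n' k' d')
    (η a a' : ℝ) : Option Bool :=
  if domain s D = ∅ ∧ domain s' D' = ∅ then some true else if η / 4 < |a - a'| then some false else none

theorem card_inputs (n k d H : ℕ) : (inputs n k d H).card = (2 * H + 1) ^ size n k d := by
  unfold inputs size
  rw [card_product, card_product, card_box, card_boxes, ← pow_add, ← pow_add]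
  congr 1
  ring

theorem gap_eq (n d H : ℕ) : gap n d H = cst n d / (H : ℝ) ^ (n + 1) := by
  unfold gap rad cst
  rw [one_div_pow, mul_pow (4 * (2 * (d : ℝ) * n + 1) * (2 * d + 1) ^ n) (H : ℝ) n, pow_succ, div_div, div_div]
  congr 1
  ring

open Classical in
/-- few values near a given number -/
theorem few (s : Fin k → Bool) (H : ℕ) (hH : 1 ≤ H) (v : ℝ) :
    ((inputs n k d H).filter (fun D => Converges s D ∧ (domain s D).Nonempty ∧
      |value s D - v| < cst n d / (H : ℝ) ^ (n + 1))).card ≤
      (2 ^ (n + k) + 1) * (2 * H + 1) ^ (size n k d - 1) := by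
  set M := (2 * d + 1) ^ n with hM
  have hM1 : 1 ≤ M := Nat.one_le_pow _ _ (by omega)
  rw [← gap_eq]
  set S := (inputs n k d H).filter (fun D => Converges s D ∧ (domain s D).Nonempty ∧
      |value s D - v| < gap n d H) with hS
  set T1 : Finset (Input n k d) := (univ : Finset (Finset (Fin n))).biUnion fun A =>
    box n d H ×ˢ box n d H ×ˢ ((boxes n k d H).filter (Thin s A)) with hT1
  set T2 := S.filter (fun D => ∀ A : Finset (Fin n), ¬ Thin s A D.2.2) with hT2
  have hsub : S ⊆ T1 ∪ T2 := by
    intro D hD
    rw [mem_union]
    by_cases h : ∀ A : Finset (Fin n), ¬ Thin s A D.2.2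
    · right
      rw [hT2, mem_filter]
      exact ⟨hD, h⟩
    · left
      push Not at h
      obtain ⟨A, hA⟩ := h
      rw [hS, mem_filter, inputs, mem_product, mem_product] at hD
      rw [hT1, mem_biUnion]
      refine ⟨A, mem_univ _, ?_⟩
      rw [mem_product, mem_product, mem_filter]
      exact ⟨hD.1.1, hD.1.2.1, hD.1.2.2, hA⟩
  have h1 : T1.card ≤ 2 ^ (n + k) * (2 * H + 1) ^ (size n k d - 1) := by
    rw [hT1]
    refine card_biUnion_le.trans ?_
    have h2 : ∀ A ∈ (univ : Finset (Finset (Fin n))),
        (box n d H ×ˢ box n d H ×ˢ ((boxes n k d H).filter (Thin s A))).card ≤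
        2 ^ k * (2 * H + 1) ^ (size n k d - 1) := by
      intro A _
      rw [card_product, card_product, card_box, ← hM]
      have h3 := card_thin (n := n) (d := d) s A H
      rw [← hM] at h3
      cases k with
      | zero =>
        have h4 : ((boxes n 0 d H).filter (Thin s A)) = ∅ := by
          rw [filter_eq_empty_iff]
          rintro p - ⟨⟨x, hx, hxA⟩, hF⟩
          exact hF ⟨x, hxA, fun j => j.elim0⟩
        rw [h4]
        simp
      | succ k =>
        have e : size n (k + 1) d - 1 = M + (M + ((k + 1) * M - 1)) := by
          unfold size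
          rw [← hM]
          have h5 : 1 ≤ (k + 1) * M := Nat.one_le_iff_ne_zero.2 (by positivity)
          have h6 : (k + 1 + 2) * M = M + (M + (k + 1) * M) := by ring
          omega
        rw [e, pow_add, pow_add]
        calc (2 * H + 1) ^ M * ((2 * H + 1) ^ M * ((boxes n (k + 1) d H).filter (Thin s A)).card)
            ≤ (2 * H + 1) ^ M * ((2 * H + 1) ^ M * (2 ^ (k + 1) * (2 * H + 1) ^ ((k + 1) * M - 1))) := by
              gcongr
          _ = _ := by ring
    refine (sum_le_card_nsmul _ _ _ h2).trans (le_of_eq ?_)
    rw [card_univ, Fintype.card_finset, Fintype.card_fin, smul_eq_mul, pow_add]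
    ring
  have h2 : T2.card ≤ (2 * H + 1) ^ (size n k d - 1) := by
    have h3 : T2.card ≤ (2 * H + 1) ^ (M - 1) * (box n d H ×ˢ boxes n k d H).card := by
      apply card_le_mul_card_image_of_maps_to (f := fun D : Input n k d => D.2)
      · intro D hD
        rw [hT2, mem_filter, hS, mem_filter, inputs, mem_product, mem_product] at hD
        rw [mem_product]
        exact hD.1.1.2
      · rintro ⟨Q, p⟩ hQp
        rw [mem_product] at hQp
        by_cases hex : ∃ D ∈ T2, D.2 = (Q, p)
        · obtain ⟨D, hD, hDe⟩ := hex
          rw [hT2, mem_filter, hS, mem_filter] at hD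
          obtain ⟨⟨-, ⟨hQ0, -⟩, ⟨x, hx⟩, -⟩, hthin⟩ := hD
          rw [hDe] at hQ0 hthin
          simp only at hQ0 hthin
          have hx' : x ∈ dom s p := by
            have h4 : D.2.2 = p := by rw [hDe]
            intro j
            have := hx j
            rw [h4] at this
            exact this
          -- the region of `x`
          set A : Finset (Fin n) := univ.filter (fun i => 1 ≤ |x i|) with hA
          have hxA : x ∈ Reg A := by
            intro i
            rw [hA, mem_filter]
            constructor
            · intro h; exact h.2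
            · intro h
              by_contra h5
              push Not at h5
              exact h ⟨mem_univ _, h5.le⟩
          have hF : Fat A p := by
            by_contra h5
            exact hthin A ⟨⟨x, hx', hxA⟩, h5⟩
          have hvol := vol_ge s p A H hH (mem_boxes.1 hQp.2) hF
          have h6 := card_near (dom s p) H hH hvol Q hQ0 (mem_box.1 hQp.1) v
          refine le_trans ?_ h6
          apply card_le_card_of_injOn (fun D : Input n k d => D.1)
          · rintro ⟨P, Q', p'⟩ hP
            rw [mem_coe, mem_filter, hT2, mem_filter, hS, mem_filter, inputs, mem_product] at hP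
            obtain ⟨⟨⟨⟨h7, -⟩, ⟨-, h8⟩, -, h9⟩, -⟩, h10⟩ := hP
            simp only [Prod.mk.injEq] at h10
            obtain ⟨rfl, rfl⟩ := h10
            rw [mem_coe, mem_filter]
            exact ⟨h7, h8, h9⟩
          · rintro ⟨P, Q₁, p₁⟩ hP ⟨P', Q₂, p₂⟩ hP' he
            rw [mem_coe, mem_filter] at hP hP'
            have e1 : (Q₁, p₁) = (Q, p) := hP.2
            have e2 : (Q₂, p₂) = (Q, p) := hP'.2
            have e3 : P = P' := he
            rw [e3, e1, e2]
        · have h4 : T2.filter (fun D => D.2 = (Q, p)) = ∅ := by
            rw [filter_eq_empty_iff]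
            intro D hD hDe
            exact hex ⟨D, hD, hDe⟩
          rw [h4]
          simp
    refine h3.trans (le_of_eq ?_)
    rw [card_product, card_box, card_boxes, ← hM, ← pow_add, ← pow_add]
    congr 1
    unfold size
    rw [← hM]
    have h6 : (k + 2) * M = M + (M + k * M) := by ring
    omega
  calc S.card ≤ (T1 ∪ T2).card := card_le_card hsub
    _ ≤ T1.card + T2.card := card_union_le _ _
    _ ≤ 2 ^ (n + k) * (2 * H + 1) ^ (size n k d - 1) + (2 * H + 1) ^ (size n k d - 1) := by omega
    _ = _ := by ring

theorem size_pos (n k d : ℕ) : 1 ≤ size n k d := by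
  unfold size
  exact Nat.one_le_iff_ne_zero.2 (by positivity)

open Classical in
/-- few pairs with different nonempty data and near values -/
theorem few_pairs (s : Fin k → Bool) (s' : Fin k' → Bool) (H : ℕ) (hH : 1 ≤ H) :
    ((inputs n k d H ×ˢ inputs n' k' d' H).filter (fun D => Converges s D.1 ∧ Converges s' D.2 ∧
      ((domain s D.1).Nonempty ∨ (domain s' D.2).Nonempty) ∧
      |value s D.1 - value s' D.2| < min (cst n d / (H : ℝ) ^ (n + 1)) (cst n' d' / (H : ℝ) ^ (n' + 1)))).card ≤
      (2 ^ (n + k) + 2 ^ (n' + k') + 2) * (2 * H + 1) ^ (size n k d + size n' k' d' - 1) := by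
  set S := (inputs n k d H ×ˢ inputs n' k' d' H).filter (fun D => Converges s D.1 ∧ Converges s' D.2 ∧
      ((domain s D.1).Nonempty ∨ (domain s' D.2).Nonempty) ∧
      |value s D.1 - value s' D.2| < min (cst n d / (H : ℝ) ^ (n + 1)) (cst n' d' / (H : ℝ) ^ (n' + 1))) with hS
  have h0 := size_pos n k d
  have h0' := size_pos n' k' d'
  have h1 : (S.filter (fun D => (domain s D.1).Nonempty)).card ≤
      (2 ^ (n + k) + 1) * (2 * H + 1) ^ (size n k d - 1) * (inputs n' k' d' H).card := by
    apply card_le_mul_card_image_of_maps_to (f := fun D : Input n k d × Input n' k' d' => D.2)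
    · intro D hD
      rw [mem_filter, hS, mem_filter, mem_product] at hD
      exact hD.1.1.2
    · intro D' _
      refine le_trans ?_ (few (n := n) (d := d) s H hH (value s' D'))
      apply card_le_card_of_injOn (fun D : Input n k d × Input n' k' d' => D.1)
      · rintro ⟨D, D''⟩ hD
        rw [mem_coe, mem_filter, mem_filter, hS, mem_filter, mem_product] at hD
        obtain ⟨⟨⟨⟨h2, -⟩, h3, -, -, h4⟩, h5⟩, rfl⟩ := hD
        rw [mem_coe, mem_filter]
        exact ⟨h2, h3, h5, h4.trans_le (min_le_left _ _)⟩
      · rintro ⟨D₁, D₁'⟩ h2 ⟨D₂, D₂'⟩ h3 he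
        rw [mem_coe, mem_filter] at h2 h3
        have e1 : D₁' = D' := h2.2
        have e2 : D₂' = D' := h3.2
        have e3 : D₁ = D₂ := he
        rw [e1, e2, e3]
  have h2 : (S.filter (fun D => (domain s' D.2).Nonempty)).card ≤
      (2 ^ (n' + k') + 1) * (2 * H + 1) ^ (size n' k' d' - 1) * (inputs n k d H).card := by
    apply card_le_mul_card_image_of_maps_to (f := fun D : Input n k d × Input n' k' d' => D.1)
    · intro D hD
      rw [mem_filter, hS, mem_filter, mem_product] at hD
      exact hD.1.1.1
    · intro D' _
      refine le_trans ?_ (few (n := n') (d := d') s' H hH (value s D'))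
      apply card_le_card_of_injOn (fun D : Input n k d × Input n' k' d' => D.2)
      · rintro ⟨D'', D⟩ hD
        rw [mem_coe, mem_filter, mem_filter, hS, mem_filter, mem_product] at hD
        obtain ⟨⟨⟨⟨-, h2⟩, -, h3, -, h4⟩, h5⟩, rfl⟩ := hD
        rw [mem_coe, mem_filter]
        refine ⟨h2, h3, h5, ?_⟩
        rw [abs_sub_comm]
        exact h4.trans_le (min_le_right _ _)
      · rintro ⟨D₁, D₁'⟩ h2 ⟨D₂, D₂'⟩ h3 he
        rw [mem_coe, mem_filter] at h2 h3
        have e1 : D₁ = D' := h2.2
        have e2 : D₂ = D' := h3.2
        have e3 : D₁' = D₂' := he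
        rw [e1, e2, e3]
  have h3 : S ⊆ S.filter (fun D => (domain s D.1).Nonempty) ∪ S.filter (fun D => (domain s' D.2).Nonempty) := by
    intro D hD
    have h4 := (mem_filter.1 hD).2.2.2.1
    rw [mem_union]
    rcases h4 with h4 | h4
    · exact Or.inl (mem_filter.2 ⟨hD, h4⟩)
    · exact Or.inr (mem_filter.2 ⟨hD, h4⟩)
  have e1 : (2 ^ (n + k) + 1) * (2 * H + 1) ^ (size n k d - 1) * (inputs n' k' d' H).card =
      (2 ^ (n + k) + 1) * (2 * H + 1) ^ (size n k d + size n' k' d' - 1) := by
    rw [card_inputs, mul_assoc, ← pow_add]
    congr 2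
    omega
  have e2 : (2 ^ (n' + k') + 1) * (2 * H + 1) ^ (size n' k' d' - 1) * (inputs n k d H).card =
      (2 ^ (n' + k') + 1) * (2 * H + 1) ^ (size n k d + size n' k' d' - 1) := by
    rw [card_inputs, mul_assoc, ← pow_add]
    congr 2
    omega
  rw [e1] at h1
  rw [e2] at h2
  calc S.card ≤ _ := card_le_card h3
    _ ≤ _ := card_union_le _ _
    _ ≤ (2 ^ (n + k) + 1) * (2 * H + 1) ^ (size n k d + size n' k' d' - 1) +
        (2 ^ (n' + k') + 1) * (2 * H + 1) ^ (size n k d + size n' k' d' - 1) := Nat.add_le_add h1 h2
    _ = _ := by ring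

open Classical in
/-- many data give convergent integrals -/
theorem many (hd : 1 ≤ d) (hk : 1 ≤ k) (s : Fin k → Bool) (H : ℕ) (hH : 1 ≤ H) :
    (2 * H + 1) ^ size n k d ≤ (48 * (2 * d + 1) ^ n) ^ size n k d *
      ((inputs n k d H).filter (fun D => Converges s D ∧ 0 < volume (domain s D))).card := by
  obtain ⟨k, rfl⟩ : ∃ l, k = l + 1 := ⟨k - 1, by omega⟩
  set b := 48 * (2 * d + 1) ^ n with hb
  have hb1 : 1 ≤ b := by
    have : 1 ≤ (2 * d + 1) ^ n := Nat.one_le_pow _ _ (by omega)
    omega
  set M := (2 * d + 1) ^ n with hM
  set U1 := box n d H with hU1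
  set U2 : Finset (Poly n d) := Fintype.piFinset (rQ n d H) with hU2
  set U3 : Finset (Fin (k + 1) → Poly n d) := Fintype.piFinset fun j =>
    if j = 0 then Fintype.piFinset (rP n d H) else Fintype.piFinset (rQ n d H) with hU3
  have hsub : U1 ×ˢ U2 ×ˢ U3 ⊆
      (inputs n (k + 1) d H).filter (fun D => Converges s D ∧ 0 < volume (domain s D)) := by
    rintro ⟨P, Q, p⟩ hD
    rw [mem_product, mem_product] at hD
    obtain ⟨hP, hQ, hp⟩ := hD
    simp only at hP hQ hp
    rw [hU2, Fintype.mem_piFinset] at hQ
    rw [hU3, Fintype.mem_piFinset] at hp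
    have hp0 : ∀ α, p 0 α ∈ rP n d H α := by
      have := hp 0
      rwa [if_pos rfl, Fintype.mem_piFinset] at this
    have hp1 : ∀ j, j ≠ 0 → ∀ α, p j α ∈ rQ n d H α := by
      intro j hj
      have := hp j
      rwa [if_neg hj, Fintype.mem_piFinset] at this
    have hpb : p ∈ boxes n (k + 1) d H := by
      rw [mem_boxes]
      intro j α
      by_cases hj : j = 0
      · subst hj
        exact rP_box n d H α _ (hp0 α)
      · exact rQ_box n d H α _ (hp1 j hj α)
    have h := good_conv hd H hH s P Q p hP hQ hp0 hp1 hpb
    rw [mem_filter, inputs, mem_product, mem_product]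
    exact ⟨⟨hP, mem_box.2 fun α => rQ_box n d H α _ (hQ α), hpb⟩, ⟨h.1, h.2.1⟩, h.2.2⟩
  have c1 : (2 * H + 1) ^ M ≤ b ^ M * U1.card := by
    rw [hU1, card_box, ← hM]
    exact Nat.le_mul_of_pos_left _ (by positivity)
  have c2 : (2 * H + 1) ^ M ≤ b ^ M * U2.card := by
    have := pi_card (rQ n d H) (2 * H + 1) b (rQ_card n d H hH)
    rwa [Pool.Agent.H40.RI.card_mono] at this
  have c3 : (2 * H + 1) ^ M ≤ b ^ M * (Fintype.piFinset (rP n d H)).card := by
    have := pi_card (rP n d H) (2 * H + 1) b (rP_card n d H hH)
    rwa [Pool.Agent.H40.RI.card_mono] at this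
  have c4 : ((2 * H + 1) ^ M) ^ (k + 1) ≤ (b ^ M) ^ (k + 1) * U3.card := by
    rw [hU3, Fintype.card_piFinset]
    have h1 : ∀ j : Fin (k + 1), (2 * H + 1) ^ M ≤ b ^ M *
        (if j = 0 then Fintype.piFinset (rP n d H) else Fintype.piFinset (rQ n d H)).card := by
      intro j
      split_ifs
      · exact c3
      · exact c2
    have h2 : ∏ _j : Fin (k + 1), (2 * H + 1) ^ M ≤ ∏ j : Fin (k + 1), (b ^ M *
        (if j = 0 then Fintype.piFinset (rP n d H) else Fintype.piFinset (rQ n d H)).card) :=
      prod_le_prod' fun j _ => h1 j
    rwa [prod_const, card_univ, Fintype.card_fin, prod_mul_distrib, prod_const, card_univ, Fintype.card_fin] at h2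
  have hcard : (U1 ×ˢ U2 ×ˢ U3).card = U1.card * (U2.card * U3.card) := by
    rw [card_product, card_product]
  have e1 : ∀ a : ℕ, a ^ size n (k + 1) d = a ^ M * (a ^ M * (a ^ M) ^ (k + 1)) := by
    intro a
    unfold size
    rw [← hM, ← pow_mul, ← pow_add, ← pow_add]
    congr 1
    ring
  calc (2 * H + 1) ^ size n (k + 1) d = (2 * H + 1) ^ M * ((2 * H + 1) ^ M * ((2 * H + 1) ^ M) ^ (k + 1)) := e1 _
    _ ≤ (b ^ M * U1.card) * ((b ^ M * U2.card) * ((b ^ M) ^ (k + 1) * U3.card)) :=
        Nat.mul_le_mul c1 (Nat.mul_le_mul c2 c4)
    _ = b ^ size n (k + 1) d * (U1 ×ˢ U2 ×ˢ U3).card := by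
        rw [hcard, e1 b]
        ring
    _ ≤ _ := Nat.mul_le_mul_left _ (card_le_card hsub)

open Classical in
/-- **Random explicit integrals.** Let `n, k, d` and `n', k', d'` be two formats, with a choice `s`, `s'` of the strict
inequalities, let `H ≥ 1`, and consider the `(2 H + 1) ^ size` data with integral coefficients in `[-H, H]`.

(A) For every real `v`, for all but `(2 ^ (n + k) + 1) (2 H + 1) ^ (size - 1)` of the data: if the integral converges
absolutely then the domain is empty or the value differs from `v` by at least `cst n d / H ^ (n + 1)`.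

(B) Let `η` be the smaller of the numbers `cst n d / H ^ (n + 1)` and `cst n' d' / H ^ (n' + 1)`, and let `a D`, `a' D'`
be approximations of the values of the convergent integrals with errors at most `η / 8`. The answers of the test are
correct for all pairs of convergent integrals, and there is an answer for all pairs of convergent integrals but at
most `(2 ^ (n + k) + 2 ^ (n' + k') + 2) (2 H + 1) ^ (size + size' - 1)`, a proportion `O(1 / H)` of the
`(2 H + 1) ^ (size + size')` pairs.

(C) If `k ≥ 1` and `d ≥ 1` then a positive proportion of the data, at least `(48 (2 d + 1) ^ n) ^ (- size)`, gives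
convergent integrals over domains of positive volume. -/
theorem result (n k d n' k' d' : ℕ) (s : Fin k → Bool) (s' : Fin k' → Bool) (H : ℕ) (hH : 1 ≤ H) :
    (∀ v : ℝ, ((inputs n k d H).filter (fun D => Converges s D ∧ (domain s D).Nonempty ∧
      |value s D - v| < cst n d / (H : ℝ) ^ (n + 1))).card ≤
      (2 ^ (n + k) + 1) * (2 * H + 1) ^ (size n k d - 1)) ∧
    (∀ η : ℝ, η = min (cst n d / (H : ℝ) ^ (n + 1)) (cst n' d' / (H : ℝ) ^ (n' + 1)) →
      ∀ (a : Input n k d → ℝ) (a' : Input n' k' d' → ℝ),
      (∀ D, Converges s D → |a D - value s D| ≤ η / 8) → (∀ D, Converges s' D → |a' D - value s' D| ≤ η / 8) →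
      (∀ D D', Converges s D → Converges s' D' →
        (test s s' D D' η (a D) (a' D') = some true → value s D = value s' D') ∧
        (test s s' D D' η (a D) (a' D') = some false → value s D ≠ value s' D')) ∧
      ((inputs n k d H ×ˢ inputs n' k' d' H).filter (fun D => Converges s D.1 ∧ Converges s' D.2 ∧
        test s s' D.1 D.2 η (a D.1) (a' D.2) = none)).card ≤
        (2 ^ (n + k) + 2 ^ (n' + k') + 2) * (2 * H + 1) ^ (size n k d + size n' k' d' - 1)) ∧
    (1 ≤ d → 1 ≤ k → (2 * H + 1) ^ size n k d ≤ (48 * (2 * d + 1) ^ n) ^ size n k d *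
      ((inputs n k d H).filter (fun D => Converges s D ∧ 0 < volume (domain s D))).card) := by
  refine ⟨fun v => few s H hH v, ?_, fun hd hk => many hd hk s H hH⟩
  intro η hη a a' ha ha'
  have hη0 : 0 < η := by
    have h1 := gap_pos n d H hH
    have h2 := gap_pos n' d' H hH
    rw [gap_eq] at h1 h2
    rw [hη]
    exact lt_min h1 h2
  refine ⟨?_, ?_⟩
  · intro D D' hD hD'
    constructor
    · intro h
      unfold test at h
      split_ifs at h with h1 h2
      · unfold value
        rw [h1.1, h1.2]
        simp
      · simp at h
    · intro h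
      unfold test at h
      split_ifs at h with h1 h2
      · simp at h
      · intro h3
        have h4 := ha D hD
        have h5 := ha' D' hD'
        rw [← h3] at h5
        have h6 : |a D - a' D'| ≤ η / 4 := by
          rw [abs_le] at h4 h5 ⊢
          constructor <;> linarith [h4.1, h4.2, h5.1, h5.2]
        linarith
  · refine le_trans (card_le_card ?_) (few_pairs (n := n) (d := d) (n' := n') (d' := d') s s' H hH)
    intro D hD
    rw [mem_filter] at hD ⊢
    obtain ⟨h1, h2, h3, h4⟩ := hD
    refine ⟨h1, h2, h3, ?_, ?_⟩
    · unfold test at h4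
      split_ifs at h4 with h5 h6
      rw [not_and_or] at h5
      rcases h5 with h5 | h5
      · exact Or.inl (Set.nonempty_iff_ne_empty.2 h5)
      · exact Or.inr (Set.nonempty_iff_ne_empty.2 h5)
    · unfold test at h4
      split_ifs at h4 with h5 h6
      rw [← hη]
      push Not at h6
      have h7 := ha D.1 h2
      have h8 := ha' D.2 h3
      have h9 : |value s D.1 - value s' D.2| ≤ η / 2 := by
        rw [abs_le] at h6 h7 h8 ⊢
        constructor <;> linarith [h6.1, h6.2, h7.1, h7.2, h8.1, h8.2]
      linarith

end Pool.Agent.Results.MP_bbe012_lc.RandomIntegrals
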