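import Mathlib
import Pool.Agent.H48.GM.TruncRates
import Pool.Graph.R_seed8.Results.MP_bbe012_lc.EqualityOverConstants

set_option autoImplicit false

/-!
# Equality of periods in families as a digit game on the parameter

Two players choose the digits of a real number `t` in `(0, 1)` one after the other; `t_n` are the truncated expansions.
The expressions are the polynomials with integral coefficients in `π`, in further constants (for instance all periods)
and in the periods `K`, `E` of Legendre curves, logarithms and polylogarithms at the parameter `t_n`. From the library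
(`EqualityOverConstants`, one parameter): at all but `C T ^ ε` of the rational parameters of denominator at most `T` the
errorless test for equality, run with the precision `μ T ^ (-B)`, gives an answer for all expressions of bounded degree
with coefficients at most `T ^ A`. New: the game theorem (`H48.GM.Universal`, `H48.GM.TruncRates`): a player who chooses
an arbitrarily small positive proportion of the digits, following ONE rule for all these families of expressions, makes
the test decide ALL equalities at ALL truncations, whatever the opponent does.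
-/

namespace Pool.Agent.Results.MP_bbe012_lc.TruncationGame

open Pool.Agent.H48.GM Real
open Pool.Agent.Results.MP_bbe012_lc.EqualityOverConstants (Name value test LowerBound NoAnswer)

/-- the truncated expansion `0.z_0 z_1 … z_(n-1)` in base `b` -/
def point (b : ℕ) (z : ℕ → ℕ) (n : ℕ) : ℚ := ∑ i ∈ Finset.range n, (z i : ℚ) / (b : ℚ) ^ (i + 1)

/-- The data of a family of expressions: the numbers `g` of constants and `N` of pairs of branch points, the largest
index `w` of the polylogarithms, the bound `d` for the degrees, the exponent `A` of the bound for the coefficients, the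
constants `y (u i)`, the branch points `x (s j)`, `x (s' j)`, and the interval `[c, e]` of the parameters. -/
structure Family where
  g : ℕ
  N : ℕ
  w : ℕ
  d : ℕ
  A : ℕ
  u : Fin g → ℕ
  s : Fin N → ℕ
  s' : Fin N → ℕ
  c : ℚ
  e : ℚ

/-- The conditions on a family: `0 < x (s j) < c < e < x (s' j) < 1`, the `x (s j)` decrease and the `x (s' j)`
increase. -/
def Family.Good (x : ℕ → ℝ) (F : Family) : Prop :=
  StrictAnti (fun j => x (F.s j)) ∧ StrictMono (fun j => x (F.s' j)) ∧ (∀ j, 0 < x (F.s j)) ∧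
    (∀ j, x (F.s' j) < 1) ∧ 0 < F.c ∧ F.c < F.e ∧ F.e < 1 ∧ ∀ j, x (F.s j) < F.c ∧ (F.e : ℝ) < x (F.s' j)

theorem family_countable : Countable Family := by
  have : Function.Injective (fun F : Family =>
      ((⟨F.g, F.u⟩, ⟨F.N, (F.s, F.s')⟩, (F.w, F.d, F.A), F.c, F.e) :
        (Σ g : ℕ, Fin g → ℕ) × (Σ N : ℕ, (Fin N → ℕ) × (Fin N → ℕ)) × (ℕ × ℕ × ℕ) × ℚ × ℚ)) := by
    rintro ⟨g, N, w, d, A, u, s, s', c, e⟩ ⟨g', N', w', d', A', u', t, t', c', e'⟩ h
    simp only [Prod.mk.injEq, Sigma.mk.injEq] at h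
    obtain ⟨⟨rfl, h1⟩, ⟨rfl, h2⟩, ⟨rfl, rfl, rfl⟩, rfl, rfl⟩ := h
    have h1' := eq_of_heq h1
    have h2' := eq_of_heq h2
    rw [Prod.mk.injEq] at h2'
    obtain ⟨rfl, rfl⟩ := h2'
    subst h1'
    rfl
  exact this.countable

/-- the greatest lower bound in `(0, 1]` for the nonzero values of polynomials at the constants -/
theorem best_bound {g : ℕ} (ξ : Fin g → ℂ) (D : ℕ) (H : ℝ) : ∃ μ : ℝ, 0 < μ ∧ μ ≤ 1 ∧ LowerBound ξ D H μ ∧
    ∀ μ' : ℝ, μ' ≤ 1 → LowerBound ξ D H μ' → μ' ≤ μ := by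
  obtain ⟨μ₀, h1, h2, h3⟩ := Pool.Agent.Results.MP_bbe012_lc.EqualityOverConstants.exists_lowerBound ξ D H
  have hne : ({μ : ℝ | μ ≤ 1 ∧ LowerBound ξ D H μ}).Nonempty := ⟨μ₀, h2, h3⟩
  have hbd : BddAbove {μ : ℝ | μ ≤ 1 ∧ LowerBound ξ D H μ} := ⟨1, fun μ h => h.1⟩
  refine ⟨sSup {μ : ℝ | μ ≤ 1 ∧ LowerBound ξ D H μ}, h1.trans_le (le_csSup hbd ⟨h2, h3⟩),
    csSup_le hne fun μ h => h.1, fun Q hQ1 hQ2 hQ3 => csSup_le hne fun μ h => h.2 Q hQ1 hQ2 hQ3,
    fun μ' h h' => le_csSup hbd ⟨h, h'⟩⟩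

open Classical in
/-- **The truncation game for the equality of periods.** Let `b ≥ 2` be a base, `x_0, x_1, …` real numbers (for instance
all real algebraic numbers) and `y_0, y_1, …` complex numbers (for instance all periods). There is a rule `σ`, which
prescribes a digit after every finite sequence of digits, such that the following holds for ALL families `F` with good
data and all `δ > 0`, with constants `D`, `B`, `C` depending on `F` and `δ`.

Let `t_n = 0.z_0 z_1 … z_(n-1)` be the truncated expansions given by digits `z_0, z_1, …`. If more than `δ n + C` of the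
first `n` digits have been chosen according to the rule (the other ones in any way, by an opponent, who also decides
when the player with the rule is to move), and if `t_n` is in the interval `[c, e]`, then for every `μ` in `(0, 1]` which
is a lower bound for the nonzero values at the constants of integral polynomials of degree at most `D` in each variable
with coefficients at most `(b ^ n) ^ (A + 1)`, for ALL pairs of expressions of degree at most `d` in each variable with
coefficients at most `(b ^ n) ^ A`, and all approximations of their values with error at most `μ (b ^ n) ^ (-B)`, the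
test gives an answer, and the right one: it decides whether the two values are equal. -/
theorem result (b : ℕ) (hb : 2 ≤ b) (x : ℕ → ℝ) (y : ℕ → ℂ) :
    ∃ σ : List ℕ → ℕ, (∀ u, σ u < b) ∧
      ∀ F : Family, F.Good x → ∀ δ : ℝ, 0 < δ → ∃ (D : ℕ) (B C : ℝ), ∀ z : ℕ → ℕ, (∀ i, z i < b) → ∀ n : ℕ,
        δ * n + C < moves σ z n → F.c ≤ point b z n → point b z n ≤ F.e →
        ∀ μ : ℝ, 0 < μ → μ ≤ 1 → LowerBound (fun i => y (F.u i)) D (((b : ℝ) ^ n) ^ ((F.A : ℝ) + 1)) μ →
        ∀ P₁ P₂ : MvPolynomial (Name F.g F.N 1 F.w) ℤ,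
          (∀ v, P₁.degreeOf v ≤ F.d ∧ P₂.degreeOf v ≤ F.d) →
          (∀ m, |((P₁.coeff m : ℤ) : ℝ)| ≤ ((b : ℝ) ^ n) ^ (F.A : ℝ) ∧
            |((P₂.coeff m : ℤ) : ℝ)| ≤ ((b : ℝ) ^ n) ^ (F.A : ℝ)) →
          ∀ v₁ v₂ : ℂ,
            ‖v₁ - value (fun j => x (F.s j)) (fun j => x (F.s' j)) (fun i => y (F.u i)) (fun _ => point b z n) P₁‖ ≤
              μ * ((b : ℝ) ^ n) ^ (-B) →
            ‖v₂ - value (fun j => x (F.s j)) (fun j => x (F.s' j)) (fun i => y (F.u i)) (fun _ => point b z n) P₂‖ ≤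
              μ * ((b : ℝ) ^ n) ^ (-B) →
            test F.d (fun i => y (F.u i)) P₁ P₂ v₁ v₂ (μ * ((b : ℝ) ^ n) ^ (-B)) =
              some (decide (value (fun j => x (F.s j)) (fun j => x (F.s' j)) (fun i => y (F.u i))
                  (fun _ => point b z n) P₁ =
                value (fun j => x (F.s j)) (fun j => x (F.s' j)) (fun i => y (F.u i)) (fun _ => point b z n) P₂)) := by
  have hcnt := family_countable
  have key : ∀ (F : Family) (j : ℕ), ∃ (D : ℕ) (B C : ℝ), F.Good x → ∀ (n : ℕ) (μ : ℝ), 0 < μ → μ ≤ 1 →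
      LowerBound (fun i => y (F.u i)) D (((b : ℝ) ^ n) ^ ((F.A : ℝ) + 1)) μ →
      ({w : List ℕ | w.length = n ∧ (∀ d ∈ w, d < b) ∧
        (fun _ => val b w : Fin 1 → ℚ) ∈ NoAnswer F.N 1 F.w F.d (fun j => x (F.s j)) (fun j => x (F.s' j))
          (fun i => y (F.u i)) (F.c : ℝ) (F.e : ℝ) (F.A : ℝ) ((b : ℝ) ^ n) (μ * ((b : ℝ) ^ n) ^ (-B))}.ncard : ℝ) ≤
        C * ((b : ℝ) ^ n) ^ (1 / ((j : ℝ) + 1)) := by
    intro F j
    by_cases hc : F.Good x
    · obtain ⟨h1, h2, h3, h4, h5, h6, h7, h8⟩ := hc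
      obtain ⟨-, ⟨D, B, C, h⟩, -⟩ := Pool.Agent.Results.MP_bbe012_lc.EqualityOverConstants.result F.g 1 F.w F.d
        le_rfl (fun j => x (F.s j)) (fun j => x (F.s' j)) h1 h2 h3 h4 (F.c : ℝ) (F.e : ℝ) (by exact_mod_cast h5)
        (by exact_mod_cast h6) (by exact_mod_cast h7) h8 (F.A : ℝ) (1 / ((j : ℝ) + 1)) (by positivity)
      refine ⟨D, B, C, fun _ n μ hμ0 hμ1 hμ => ?_⟩
      have hT : (1 : ℝ) ≤ (b : ℝ) ^ n := one_le_pow₀ (by exact_mod_cast (by omega : 1 ≤ b))
      obtain ⟨-, hh⟩ := h ((b : ℝ) ^ n) hT (fun i => y (F.u i))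
      obtain ⟨hf, hle⟩ := hh μ hμ0 hμ1 hμ
      rw [Nat.cast_one, sub_self, mul_zero, zero_add] at hle
      refine le_trans ?_ hle
      have hinj : Set.InjOn (fun (w : List ℕ) (_ : Fin 1) => val b w)
          {w : List ℕ | w.length = n ∧ (∀ d ∈ w, d < b) ∧
            (fun _ => val b w : Fin 1 → ℚ) ∈ NoAnswer F.N 1 F.w F.d (fun j => x (F.s j)) (fun j => x (F.s' j))
              (fun i => y (F.u i)) (F.c : ℝ) (F.e : ℝ) (F.A : ℝ) ((b : ℝ) ^ n) (μ * ((b : ℝ) ^ n) ^ (-B))} := by
        intro w hw v hv he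
        exact val_inj hb w v hw.2.1 hv.2.1 (hw.1.trans hv.1.symm) (congrFun he 0)
      rw [← Set.ncard_image_of_injOn hinj]
      have hsub : (fun (w : List ℕ) (_ : Fin 1) => val b w) ''
          {w : List ℕ | w.length = n ∧ (∀ d ∈ w, d < b) ∧
            (fun _ => val b w : Fin 1 → ℚ) ∈ NoAnswer F.N 1 F.w F.d (fun j => x (F.s j)) (fun j => x (F.s' j))
              (fun i => y (F.u i)) (F.c : ℝ) (F.e : ℝ) (F.A : ℝ) ((b : ℝ) ^ n) (μ * ((b : ℝ) ^ n) ^ (-B))} ⊆
          NoAnswer F.N 1 F.w F.d (fun j => x (F.s j)) (fun j => x (F.s' j))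
              (fun i => y (F.u i)) (F.c : ℝ) (F.e : ℝ) (F.A : ℝ) ((b : ℝ) ^ n) (μ * ((b : ℝ) ^ n) ^ (-B)) := by
        rintro _ ⟨w, ⟨-, -, hE⟩, rfl⟩
        exact hE
      exact_mod_cast Set.ncard_le_ncard hsub hf
    · exact ⟨0, 0, 0, fun h => absurd h hc⟩
  choose D B C hBC using key
  choose ν hν0 hν1 hνL hνM using fun (F : Family) (j n : ℕ) =>
    best_bound (fun i => y (F.u i)) (D F j) (((b : ℝ) ^ n) ^ ((F.A : ℝ) + 1))
  obtain ⟨σ, hσb, hσ⟩ := trunc_game_rates (ι := Family × ℕ) hb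
    (fun i => {w | i.1.Good x ∧ (fun _ => val b w : Fin 1 → ℚ) ∈
      NoAnswer i.1.N 1 i.1.w i.1.d (fun j => x (i.1.s j)) (fun j => x (i.1.s' j))
          (fun l => y (i.1.u l)) (i.1.c : ℝ) (i.1.e : ℝ) (i.1.A : ℝ) ((b : ℝ) ^ w.length)
          (ν i.1 i.2 w.length * ((b : ℝ) ^ w.length) ^ (-(B i.1 i.2)))})
    (fun i => 1 / ((i.2 : ℝ) + 1)) (fun i => by positivity) (by
      rintro ⟨F, j⟩
      by_cases hc : F.Good x
      · refine ⟨C F j, fun n => ?_⟩
        refine le_trans (le_of_eq ?_) (hBC F j hc n (ν F j n) (hν0 F j n) (hν1 F j n) (hνL F j n))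
        congr 2
        ext w
        simp only [Set.mem_setOf_eq]
        constructor
        · rintro ⟨h1, h2, h3⟩
          subst h1
          exact ⟨rfl, h2, h3.2⟩
        · rintro ⟨h1, h2, h3⟩
          subst h1
          exact ⟨rfl, h2, hc, h3⟩
      · refine ⟨0, fun n => ?_⟩
        simp [hc])
  refine ⟨σ, hσb, fun F hF δ hδ => ?_⟩
  obtain ⟨j, hj⟩ := exists_nat_one_div_lt hδ
  obtain ⟨C', hC'⟩ := hσ ⟨F, j⟩ δ hj
  refine ⟨D F j, B F j, C', fun z hz n hmov hc he μ hμ0 hμ1 hμ P₁ P₂ hd hcf v₁ v₂ hv₁ hv₂ => ?_⟩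
  have h1 := hC' z hz n hmov
  have h2 : val b (play z n) = point b z n := by
    rw [val_play hb]
    rfl
  have hb0 : (0 : ℝ) < (b : ℝ) ^ n := by positivity
  have hpos : (0 : ℝ) < ((b : ℝ) ^ n) ^ (-(B F j)) := rpow_pos_of_pos hb0 _
  have hle : μ * ((b : ℝ) ^ n) ^ (-(B F j)) ≤ ν F j n * ((b : ℝ) ^ n) ^ (-(B F j)) :=
    mul_le_mul_of_nonneg_right (hνM F j n μ hμ1 hμ) hpos.le
  have hint : ∀ l : Fin 1, ((F.c : ℝ)) ≤ ((point b z n : ℚ) : ℝ) ∧ ((point b z n : ℚ) : ℝ) ≤ ((F.e : ℝ)) :=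
    fun _ => ⟨by exact_mod_cast hc, by exact_mod_cast he⟩
  have hans : test F.d (fun i => y (F.u i)) P₁ P₂ v₁ v₂ (μ * ((b : ℝ) ^ n) ^ (-(B F j))) ≠ none := by
    intro hnone
    apply h1
    simp only [Set.mem_setOf_eq, play_length, h2]
    refine ⟨hF, fun l => ⟨(hint l).1, (hint l).2, ?_⟩, P₁, P₂, hd, hcf, v₁, v₂, hv₁.trans hle, hv₂.trans hle, ?_⟩
    · obtain ⟨zz, hzz⟩ := val_int hb (play z n)
      rw [h2, play_length] at hzz
      have := den_le (q := point b z n) (m := b ^ n) (by positivity) zz (by push_cast; exact hzz)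
      exact_mod_cast this
    · unfold test at hnone ⊢
      split_ifs at hnone with h3 h4
      rw [if_neg h3, if_neg]
      rw [not_lt] at h4 ⊢
      linarith
  obtain ⟨k1, k2, k3, k4, k5, k6, k7, k8⟩ := hF
  obtain ⟨hsound, -, -⟩ := Pool.Agent.Results.MP_bbe012_lc.EqualityOverConstants.result F.g 1 F.w F.d
        le_rfl (fun j => x (F.s j)) (fun j => x (F.s' j)) k1 k2 k3 k4 (F.c : ℝ) (F.e : ℝ) (by exact_mod_cast k5)
        (by exact_mod_cast k6) (by exact_mod_cast k7) k8 (F.A : ℝ) 1 one_pos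
  obtain ⟨hs1, hs2⟩ := hsound (fun i => y (F.u i)) (fun _ => point b z n) hint P₁ P₂ v₁ v₂ _ hv₁ hv₂
  obtain ⟨bo, hbo⟩ := Option.ne_none_iff_exists'.1 hans
  rw [hbo]
  congr 1
  cases bo
  · rw [eq_comm, decide_eq_false_iff_not]
    exact hs2 hbo
  · rw [eq_comm, decide_eq_true_iff]
    exact hs1 hbo

end Pool.Agent.Results.MP_bbe012_lc.TruncationGame
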